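import Mathlib

/-! The determinant of a sum of matrices of rank one. -/

open Matrix Finset

namespace Pool.Agent.V8H47.IM

/-- the sum of the matrices `c e • (u e) (u e)ᵀ` -/
def mom {n : ℕ} {E : Type} [Fintype E] (u : E → Fin n → ℝ) (c : E → ℝ) :
    Matrix (Fin n) (Fin n) ℝ :=
  Matrix.of fun i j => ∑ e, c e * (u e i * u e j)

theorem det_mom_aux {n : ℕ} {E : Type} [Fintype E] [DecidableEq E] (u : E → Fin n → ℝ)
    (c : E → ℝ) : (mom u c).det = ∑ s : Fin n → E, (∏ i, c (s i)) * (∏ i, u (s i) i) *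
      (Matrix.of fun i => u (s i)).det := by
  rw [Matrix.det_apply']
  have h1 : ∀ σ : Equiv.Perm (Fin n), ∏ i, mom u c (σ i) i =
      ∑ s : Fin n → E, ∏ i, (c (s i) * (u (s i) (σ i) * u (s i) i)) := by
    intro σ
    simp only [mom, Matrix.of_apply]
    rw [Finset.prod_univ_sum]
    rfl
  simp_rw [h1, Finset.mul_sum]
  rw [Finset.sum_comm]
  apply Finset.sum_congr rfl
  intro s _
  rw [← Matrix.det_transpose, Matrix.det_apply', Finset.mul_sum]
  apply Finset.sum_congr rfl
  intro σ _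
  simp only [Finset.prod_mul_distrib, Matrix.transpose_apply, Matrix.of_apply]
  ring

theorem det_mom {n : ℕ} {E : Type} [Fintype E] (u : E → Fin n → ℝ)
    (c : E → ℝ) : (n.factorial : ℝ) * (mom u c).det = ∑ s : Fin n → E, (∏ i, c (s i)) *
      (Matrix.of fun i => u (s i)).det ^ 2 := by
  classical
  have h1 : ∀ τ : Equiv.Perm (Fin n), (mom u c).det = ∑ s : Fin n → E, (∏ i, c (s i)) *
      (Matrix.of fun i => u (s i)).det * ((Equiv.Perm.sign τ : ℤ) * ∏ i, u (s (τ i)) i) := by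
    intro τ
    rw [det_mom_aux]
    rw [← Equiv.sum_comp (Equiv.arrowCongr τ.symm (Equiv.refl E))]
    apply Finset.sum_congr rfl
    intro s _
    have e1 : ∀ i, (Equiv.arrowCongr τ.symm (Equiv.refl E)) s i = s (τ i) := by
      intro i
      simp [Equiv.arrowCongr]
    simp only [e1]
    rw [Equiv.prod_comp τ (fun i => c (s i))]
    have e2 : (Matrix.of fun i => u (s (τ i))).det =
        (Equiv.Perm.sign τ : ℤ) * (Matrix.of fun i => u (s i)).det := by
      rw [← Matrix.det_permute τ]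
      rfl
    rw [e2]
    ring
  have h2 : (n.factorial : ℝ) * (mom u c).det = ∑ _τ : Equiv.Perm (Fin n), (mom u c).det := by
    rw [Finset.sum_const, Finset.card_univ, Fintype.card_perm, Fintype.card_fin, nsmul_eq_mul]
  rw [h2]
  rw [Finset.sum_congr rfl fun τ _ => h1 τ]
  rw [Finset.sum_comm]
  apply Finset.sum_congr rfl
  intro s _
  rw [← Finset.mul_sum]
  have e3 : ∑ τ : Equiv.Perm (Fin n), ((Equiv.Perm.sign τ : ℤ) : ℝ) * ∏ i, u (s (τ i)) i =
      (Matrix.of fun i => u (s i)).det := by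
    rw [Matrix.det_apply']
    rfl
  rw [e3]
  ring

theorem q_mom {n : ℕ} {E : Type} [Fintype E] (u : E → Fin n → ℝ) (c : E → ℝ) (x : Fin n → ℝ) :
    x ⬝ᵥ (mom u c *ᵥ x) = ∑ e, c e * (u e ⬝ᵥ x) ^ 2 := by
  have h1 : ∀ e, c e * (u e ⬝ᵥ x) ^ 2 =
      ∑ i, ∑ j, c e * (u e i * x i * (u e j * x j)) := by
    intro e
    rw [dotProduct, sq, Finset.sum_mul_sum, Finset.mul_sum]
    apply Finset.sum_congr rfl
    intro i _
    rw [Finset.mul_sum]
  rw [Finset.sum_congr rfl fun e _ => h1 e, Finset.sum_comm]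
  rw [dotProduct]
  apply Finset.sum_congr rfl
  intro i _
  rw [mulVec, dotProduct, Finset.mul_sum, Finset.sum_comm]
  apply Finset.sum_congr rfl
  intro j _
  simp only [mom, Matrix.of_apply]
  rw [Finset.sum_mul, Finset.mul_sum]
  apply Finset.sum_congr rfl
  intro e _
  ring

theorem trace_mom {n : ℕ} {E : Type} [Fintype E] (u : E → Fin n → ℝ) (c : E → ℝ) :
    (mom u c).trace = ∑ e, c e * (u e ⬝ᵥ u e) := by
  simp only [Matrix.trace, Matrix.diag, mom, Matrix.of_apply, dotProduct, Finset.mul_sum]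
  rw [Finset.sum_comm]

theorem mom_symm {n : ℕ} {E : Type} [Fintype E] (u : E → Fin n → ℝ) (c : E → ℝ) :
    (mom u c).IsSymm := by
  ext i j
  simp only [Matrix.transpose_apply, mom, Matrix.of_apply]
  apply Finset.sum_congr rfl
  intro e _
  ring

theorem mom_posSemidef {n : ℕ} {E : Type} [Fintype E] (u : E → Fin n → ℝ) {c : E → ℝ}
    (hc : ∀ e, 0 ≤ c e) : (mom u c).PosSemidef := by
  rw [Matrix.posSemidef_iff_dotProduct_mulVec]
  refine ⟨?_, fun x => ?_⟩
  · rw [Matrix.IsHermitian, Matrix.conjTranspose_eq_transpose_of_trivial]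
    exact mom_symm u c
  · rw [star_trivial, q_mom]
    exact Finset.sum_nonneg fun e _ => mul_nonneg (hc e) (sq_nonneg _)

end Pool.Agent.V8H47.IM
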