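import Pool.Agent.V8H47.IM.CB

/-! Maximal determinants of moment matrices (designs). -/

open Matrix Finset

namespace Pool.Agent.V8H47.IM

theorem det_rank_one {n : ℕ} {A : Matrix (Fin n) (Fin n) ℝ} (hA : IsUnit A.det) (a : ℝ)
    (u : Fin n → ℝ) : (A + a • vecMulVec u u).det = A.det * (1 + a * (u ⬝ᵥ (A⁻¹ *ᵥ u))) := by
  have h1 : a • vecMulVec u u = replicateCol Unit (a • u) * replicateRow Unit u := by
    ext i j
    simp [vecMulVec, Matrix.mul_apply, mul_assoc]
  rw [h1, Matrix.det_add_replicateCol_mul_replicateRow hA]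
  congr 1
  rw [det_unique]
  simp only [Matrix.add_apply, Matrix.one_apply_eq, Matrix.mul_apply, replicateRow_apply,
    replicateCol_apply, dotProduct, mulVec, Finset.mul_sum, Finset.sum_mul, Pi.smul_apply,
    smul_eq_mul]
  congr 1
  rw [Finset.sum_comm]
  apply Finset.sum_congr rfl
  intro i _
  apply Finset.sum_congr rfl
  intro j _
  ring

theorem mom_mix {n : ℕ} {E : Type} [Fintype E] [DecidableEq E] (u : E → Fin n → ℝ) (p : E → ℝ)
    (s : ℝ) (e : E) : mom u (fun f => (1 - s) * p f + s * (if f = e then 1 else 0)) =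
      (1 - s) • mom u p + s • vecMulVec (u e) (u e) := by
  ext i j
  simp only [mom, Matrix.of_apply, Matrix.add_apply, Matrix.smul_apply, smul_eq_mul, vecMulVec]
  have h1 : ∀ f, ((1 - s) * p f + s * (if f = e then 1 else 0)) * (u f i * u f j) =
      (1 - s) * (p f * (u f i * u f j)) + s * (if f = e then u f i * u f j else 0) := by
    intro f
    split_ifs <;> ring
  rw [Finset.sum_congr rfl fun f _ => h1 f, Finset.sum_add_distrib, ← Finset.mul_sum,
    ← Finset.mul_sum, Finset.sum_ite_eq' Finset.univ e]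
  simp

theorem exists_design {n : ℕ} {E : Type} [Fintype E] [Nonempty E] (u : E → Fin n → ℝ) :
    ∃ p : E → ℝ, (∀ e, 0 ≤ p e) ∧ ∑ e, p e = 1 ∧
      ∀ p' : E → ℝ, (∀ e, 0 ≤ p' e) → ∑ e, p' e = 1 → (mom u p').det ≤ (mom u p).det := by
  classical
  have hcont : Continuous fun p : E → ℝ => (mom u p).det := by
    apply Continuous.matrix_det
    apply continuous_matrix
    intro i j
    simp only [mom, Matrix.of_apply]
    fun_prop
  obtain ⟨p, hp, hmax⟩ := (isCompact_stdSimplex ℝ E).exists_isMaxOn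
    ⟨Pi.single (Classical.arbitrary E) 1, single_mem_stdSimplex ℝ _⟩ hcont.continuousOn
  refine ⟨p, hp.1, hp.2, fun p' h1 h2 => ?_⟩
  exact hmax (show p' ∈ stdSimplex ℝ E from ⟨h1, h2⟩)

theorem design_kkt {n : ℕ} {E : Type} [Fintype E] (u : E → Fin n → ℝ) {p : E → ℝ}
    (hp : ∀ e, 0 ≤ p e) (hs : ∑ e, p e = 1)
    (hmax : ∀ p' : E → ℝ, (∀ e, 0 ≤ p' e) → ∑ e, p' e = 1 → (mom u p').det ≤ (mom u p).det)
    (hd : 0 < (mom u p).det) (e : E) : u e ⬝ᵥ ((mom u p)⁻¹ *ᵥ u e) ≤ n := by
  classical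
  set a := u e ⬝ᵥ ((mom u p)⁻¹ *ᵥ u e) with ha
  by_contra hlt
  push Not at hlt
  -- the inequality for all small `s`
  have key : ∀ s : ℝ, 0 < s → s < 1 → (n : ℝ) * s ≤ 1 → a - n ≤ n * s * a := by
    intro s hs0 hs1 hns
    have h1 := hmax (fun f => (1 - s) * p f + s * (if f = e then 1 else 0)) (by
        intro f
        have := hp f
        have : 0 ≤ (1 - s) * p f := mul_nonneg (by linarith) this
        split_ifs <;> linarith) (by
        rw [Finset.sum_add_distrib, ← Finset.mul_sum, hs, ← Finset.mul_sum]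
        simp)
    rw [mom_mix] at h1
    have h1s : 0 < 1 - s := by linarith
    have h2 : (1 - s) • mom u p + s • vecMulVec (u e) (u e) =
        (1 - s) • (mom u p + (s / (1 - s)) • vecMulVec (u e) (u e)) := by
      rw [smul_add, smul_smul]
      congr 2
      field_simp
    rw [h2, Matrix.det_smul, det_rank_one hd.ne'.isUnit, ← ha, Fintype.card_fin] at h1
    have h3 : (1 - s) ^ n * (1 + s / (1 - s) * a) ≤ 1 := by
      have : (mom u p).det * ((1 - s) ^ n * (1 + s / (1 - s) * a)) ≤ (mom u p).det * 1 := by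
        nlinarith [h1]
      exact le_of_mul_le_mul_left this hd
    have hbern : 1 - (n : ℝ) * s ≤ (1 - s) ^ n := by
      have := one_add_mul_le_pow (a := -s) (by linarith) n
      have e1 : (1 : ℝ) + -s = 1 - s := by ring
      rw [e1] at this
      linarith
    have h4 : 1 + s * a ≤ 1 + s / (1 - s) * a := by
      have hapos : 0 < a := lt_of_le_of_lt (Nat.cast_nonneg n) hlt
      have : s ≤ s / (1 - s) := by
        rw [le_div_iff₀ h1s]; nlinarith
      nlinarith
    have hapos : 0 < a := lt_of_le_of_lt (Nat.cast_nonneg n) hlt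
    have h5 : (1 - (n : ℝ) * s) * (1 + s * a) ≤ 1 := by
      calc (1 - (n : ℝ) * s) * (1 + s * a) ≤ (1 - s) ^ n * (1 + s / (1 - s) * a) := by
            apply mul_le_mul hbern h4 (by positivity) (by positivity)
        _ ≤ 1 := h3
    have h6 : s * (a - n) ≤ s * (n * s * a) := by nlinarith
    exact le_of_mul_le_mul_left h6 hs0
  have hapos : 0 < a := lt_of_le_of_lt (Nat.cast_nonneg n) hlt
  have hn0 : (0 : ℝ) ≤ n := Nat.cast_nonneg n
  obtain ⟨s, hsdef⟩ : ∃ s : ℝ, s = (a - n) / (2 * (n + 1) * (a + 1)) := ⟨_, rfl⟩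
  have hden : 0 < 2 * ((n : ℝ) + 1) * (a + 1) := by positivity
  have hs0 : 0 < s := by rw [hsdef]; apply div_pos (by linarith) hden
  have hs1 : s < 1 := by
    rw [hsdef, div_lt_one hden]; nlinarith
  have hsn : (n : ℝ) * s ≤ 1 := by
    rw [hsdef, mul_div_assoc', div_le_one hden]; nlinarith
  have h1 := key s hs0 hs1 hsn
  have h2 : (n : ℝ) * s * a < a - n := by
    rw [hsdef, mul_div_assoc', div_mul_eq_mul_div, div_lt_iff₀ hden]
    have h3 : 0 < a - n := by linarith
    have h4 : (n : ℝ) * a < 2 * (n + 1) * (a + 1) := by nlinarith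
    calc (n : ℝ) * (a - n) * a = (a - n) * (n * a) := by ring
      _ < (a - n) * (2 * (n + 1) * (a + 1)) := mul_lt_mul_of_pos_left h4 h3
  linarith

end Pool.Agent.V8H47.IM
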