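import Pool.Agent.V8H47.IM.Vertex
import Pool.Agent.V8H47.DDom.Bound

/-! Forms `∑ c_e (v_e · x)²` with integral `v_e` and bounded minors. -/

open Matrix Finset

namespace Pool.Agent.V8H47.IM

open Pool.Agent.V8H47.DDom

/-- integral vectors as real vectors -/
def cv {n : ℕ} (w : Fin n → ℤ) : Fin n → ℝ := fun j => (w j : ℝ)

theorem cv_ne {n : ℕ} {w : Fin n → ℤ} (hw : w ≠ 0) : cv w ≠ 0 := by
  intro h
  apply hw
  ext j
  have := congrFun h j
  simp only [cv, Pi.zero_apply] at this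
  exact_mod_cast this

theorem q_form {n : ℕ} {E : Type} [Fintype E] (v : E → Fin n → ℤ) (c : E → ℝ) (z : Fin n → ℤ) :
    q (mom (fun e => cv (v e)) c) z = ∑ e, c e * (cv (v e) ⬝ᵥ cv z) ^ 2 :=
  q_mom _ c (cv z)

theorem det_cv {n : ℕ} (w : Fin n → Fin n → ℤ) :
    (Matrix.of fun i => cv (w i)).det = ((Matrix.of w).det : ℝ) := by
  rw [← det_map_cast]
  rfl

theorem span_of_posDef {n : ℕ} {E : Type} [Fintype E] {a : E → Fin n → ℝ} {c : E → ℝ}
    (hQ : (mom a c).PosDef) (d : Fin n → ℝ) (hd : ∀ e, a e ⬝ᵥ d = 0) : d = 0 := by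
  by_contra h
  have h1 := (Matrix.posDef_iff_dotProduct_mulVec.mp hQ).2 h
  rw [star_trivial, q_mom] at h1
  have h2 : ∑ e, c e * (a e ⬝ᵥ d) ^ 2 = 0 :=
    Finset.sum_eq_zero fun e _ => by rw [hd e]; ring
  linarith

theorem norm_ineq {n : ℕ} {E : Type} [Fintype E] {v : E → Fin n → ℤ} {c : E → ℝ}
    (hc : ∀ e, 0 ≤ c e) (hQ : (mom (fun e => cv (v e)) c).PosDef) {μ : ℝ} (hμ : 0 ≤ μ)
    (hm : MinGe (mom (fun e => cv (v e)) c) μ) {D : ℝ}
    (hD : ∀ s : Fin n → E, |((Matrix.of fun i => v (s i)).det : ℝ)| ≤ D) (x : Fin n → ℝ) (e0 : E) :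
    μ * |cv (v e0) ⬝ᵥ x| ≤ D ^ 2 * ∑ e, c e * |cv (v e) ⬝ᵥ x| := by
  classical
  have hspan := span_of_posDef hQ
  obtain ⟨e1, -, hmax⟩ := (univ : Finset E).exists_max_image (fun e => |cv (v e) ⬝ᵥ x|)
    ⟨e0, Finset.mem_univ _⟩
  have hN0 : 0 ≤ ∑ e, c e * |cv (v e) ⬝ᵥ x| :=
    Finset.sum_nonneg fun e _ => mul_nonneg (hc e) (abs_nonneg _)
  refine le_trans (mul_le_mul_of_nonneg_left (hmax e0 (Finset.mem_univ _)) hμ) ?_
  obtain ⟨m, hmdef⟩ : ∃ m : ℝ, m = |cv (v e1) ⬝ᵥ x| := ⟨_, rfl⟩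
  rw [← hmdef]
  have hm0 : 0 ≤ m := by rw [hmdef]; exact abs_nonneg _
  rcases hm0.eq_or_lt with hm1 | hm1
  · rw [← hm1, mul_zero]
    positivity
  -- the vertex
  obtain ⟨y, hy1, hy2, hy3, hy4⟩ := vertex (c := c) hspan
    (univ.filter fun e => ¬ Tight (cv (v e) ⬝ᵥ (m⁻¹ • x))).card (m⁻¹ • x) (by
      intro e
      rw [dotProduct_smul, smul_eq_mul, abs_mul, abs_of_pos (inv_pos.mpr hm1),
        inv_mul_le_iff₀ hm1, mul_one, hmdef]
      exact hmax e (Finset.mem_univ _)) le_rfl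
  have hx1 : |cv (v e1) ⬝ᵥ (m⁻¹ • x)| = 1 := by
    rw [dotProduct_smul, smul_eq_mul, abs_mul, abs_of_pos (inv_pos.mpr hm1), ← hmdef,
      inv_mul_cancel₀ hm1.ne']
  have hy5 : |cv (v e1) ⬝ᵥ y| = 1 := by rw [hy3 e1 (Or.inr hx1), hx1]
  -- a basis of tight rows
  obtain ⟨s, hs1, hs2⟩ : ∃ s : Fin n → E, (∀ i, Tight (cv (v (s i)) ⬝ᵥ y)) ∧
      (Matrix.of fun i => v (s i)).det ≠ 0 := by
    obtain ⟨cT, hcT⟩ : ∃ cT : E → ℝ, cT = fun e => if Tight (cv (v e) ⬝ᵥ y) then 1 else 0 :=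
      ⟨_, rfl⟩
    have hcT0 : ∀ e, 0 ≤ cT e := by
      intro e
      rw [hcT]
      dsimp only
      split_ifs <;> norm_num
    have hpd : (mom (fun e => cv (v e)) cT).PosDef := by
      rw [Matrix.posDef_iff_dotProduct_mulVec]
      refine ⟨?_, fun d hd => ?_⟩
      · rw [Matrix.IsHermitian, Matrix.conjTranspose_eq_transpose_of_trivial]
        exact mom_symm _ _
      · rw [star_trivial, q_mom]
        have h1 : ∃ e, Tight (cv (v e) ⬝ᵥ y) ∧ cv (v e) ⬝ᵥ d ≠ 0 := by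
          by_contra h
          push Not at h
          exact hd (hy4 d h)
        obtain ⟨e, he1, he2⟩ := h1
        apply Finset.sum_pos'
        · intro f _
          exact mul_nonneg (hcT0 f) (sq_nonneg _)
        · refine ⟨e, Finset.mem_univ e, ?_⟩
          rw [hcT]
          dsimp only
          rw [if_pos he1]
          positivity
    have h1 := det_mom (fun e => cv (v e)) cT
    have h2 : 0 < (n.factorial : ℝ) * (mom (fun e => cv (v e)) cT).det := by
      have := hpd.det_pos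
      have h3 : (0 : ℝ) < n.factorial := by exact_mod_cast Nat.factorial_pos n
      positivity
    rw [h1] at h2
    obtain ⟨s, -, hs⟩ := Finset.exists_ne_zero_of_sum_ne_zero h2.ne'
    refine ⟨s, ?_, ?_⟩
    · intro i
      by_contra hcon
      apply hs
      have h3 : ∏ i, cT (s i) = 0 := by
        apply Finset.prod_eq_zero (Finset.mem_univ i)
        rw [hcT]
        dsimp only
        rw [if_neg hcon]
      rw [h3, zero_mul]
    · intro h3
      apply hs
      rw [det_cv (fun i => v (s i)), h3]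
      simp
  obtain ⟨W, hW⟩ : ∃ W : Matrix (Fin n) (Fin n) ℤ, W = Matrix.of fun i => v (s i) := ⟨_, rfl⟩
  rw [← hW] at hs2
  have hWD : |(W.det : ℝ)| ≤ D := by rw [hW]; exact hD s
  -- integral values
  have ht : ∀ i, ∃ t : ℤ, (t : ℝ) = cv (v (s i)) ⬝ᵥ y := by
    intro i
    rcases hs1 i with h | h
    · exact ⟨0, by rw [abs_eq_zero.mp h]; simp⟩
    · rcases eq_or_eq_neg_of_abs_eq h with h | h
      · exact ⟨1, by rw [h]; simp⟩
      · exact ⟨-1, by rw [h]; simp⟩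
  choose t ht using ht
  have hWy : (W.map (Int.cast : ℤ → ℝ)) *ᵥ y = cv t := by
    ext i
    rw [cv, ht i, hW]
    rfl
  have hz : cv (W.adjugate *ᵥ t) = (W.det : ℝ) • y := by
    have h1 : cv (W.adjugate *ᵥ t) = (W.adjugate.map (Int.cast : ℤ → ℝ)) *ᵥ cv t :=
      (cast_mulVec W.adjugate t).symm
    have h2 : W.adjugate.map (Int.cast : ℤ → ℝ) * W.map (Int.cast : ℤ → ℝ) =
        (W.det : ℝ) • (1 : Matrix (Fin n) (Fin n) ℝ) := by
      have h3 := Matrix.adjugate_mul W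
      have h5 : (W.adjugate * W).map (Int.cast : ℤ → ℝ) =
          W.adjugate.map (Int.cast : ℤ → ℝ) * W.map (Int.cast : ℤ → ℝ) :=
        Matrix.map_mul (f := Int.castRingHom ℝ)
      rw [← h5, h3]
      ext i j
      rw [Matrix.map_apply, Matrix.smul_apply, Matrix.smul_apply, Matrix.one_apply,
        Matrix.one_apply]
      split_ifs <;> simp
    rw [h1, ← hWy, Matrix.mulVec_mulVec, h2, Matrix.smul_mulVec, Matrix.one_mulVec]
  have hWr : (W.det : ℝ) ≠ 0 := by exact_mod_cast hs2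
  have hz0 : W.adjugate *ᵥ t ≠ 0 := by
    intro h
    rw [h] at hz
    have h1 : y = 0 := by
      have h2 : cv (0 : Fin n → ℤ) = 0 := by ext j; simp [cv]
      rw [h2] at hz
      exact (smul_eq_zero.mp hz.symm).resolve_left hWr
    rw [h1, dotProduct_zero, abs_zero] at hy5
    norm_num at hy5
  have hq := hm _ hz0
  rw [q_form, hz] at hq
  have h1 : ∑ e, c e * (cv (v e) ⬝ᵥ ((W.det : ℝ) • y)) ^ 2 ≤
      D ^ 2 * ∑ e, c e * |cv (v e) ⬝ᵥ y| := by
    have h2 : (W.det : ℝ) ^ 2 ≤ D ^ 2 := by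
      rw [← sq_abs (W.det : ℝ)]
      exact pow_le_pow_left₀ (abs_nonneg _) hWD 2
    rw [Finset.mul_sum]
    apply Finset.sum_le_sum
    intro e _
    have h3 : (cv (v e) ⬝ᵥ y) ^ 2 ≤ |cv (v e) ⬝ᵥ y| := by
      rw [← sq_abs, sq]
      exact mul_le_of_le_one_left (abs_nonneg _) (hy1 e)
    calc c e * (cv (v e) ⬝ᵥ ((W.det : ℝ) • y)) ^ 2
        = (W.det : ℝ) ^ 2 * (c e * (cv (v e) ⬝ᵥ y) ^ 2) := by
          rw [dotProduct_smul, smul_eq_mul]; ring
      _ ≤ D ^ 2 * (c e * |cv (v e) ⬝ᵥ y|) := by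
          have := hc e
          have h4 := sq_nonneg (cv (v e) ⬝ᵥ y)
          gcongr
  have h2 : ∑ e, c e * |cv (v e) ⬝ᵥ (m⁻¹ • x)| = m⁻¹ * ∑ e, c e * |cv (v e) ⬝ᵥ x| := by
    rw [Finset.mul_sum]
    apply Finset.sum_congr rfl
    intro e _
    rw [dotProduct_smul, smul_eq_mul, abs_mul, abs_of_pos (inv_pos.mpr hm1)]
    ring
  rw [h2] at hy2
  have h3 : μ ≤ D ^ 2 * (m⁻¹ * ∑ e, c e * |cv (v e) ⬝ᵥ x|) :=
    (hq.trans h1).trans (mul_le_mul_of_nonneg_left hy2 (sq_nonneg _))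
  have h4 := mul_le_mul_of_nonneg_right h3 hm0
  refine h4.trans (le_of_eq ?_)
  field_simp

/-- there is a short dual vector -/
theorem short_dual {n : ℕ} (hn : 0 < n) {E : Type} [Fintype E] {v : E → Fin n → ℤ} {c : E → ℝ}
    (hc : ∀ e, 0 ≤ c e) (hQ : (mom (fun e => cv (v e)) c).PosDef) {μ : ℝ} (hμ : 0 ≤ μ)
    (hm : MinGe (mom (fun e => cv (v e)) c) μ) {D : ℝ}
    (hD : ∀ s : Fin n → E, |((Matrix.of fun i => v (s i)).det : ℝ)| ≤ D) (hv : ∀ e, v e ≠ 0) :
    ∃ e, μ * (cv (v e) ⬝ᵥ ((mom (fun e => cv (v e)) c)⁻¹ *ᵥ cv (v e))) ≤ D ^ 2 * √n := by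
  classical
  obtain ⟨Q, hQdef⟩ : ∃ Q, Q = mom (fun e => cv (v e)) c := ⟨_, rfl⟩
  rw [← hQdef] at hQ hm ⊢
  have hQi : Q⁻¹.PosDef := hQ.inv
  obtain ⟨R, hR⟩ : ∃ R : E → ℝ, R = fun e => cv (v e) ⬝ᵥ (Q⁻¹ *ᵥ cv (v e)) := ⟨_, rfl⟩
  have hR0 : ∀ e, 0 < R e := by
    intro e
    have := (Matrix.posDef_iff_dotProduct_mulVec.mp hQi).2 (cv_ne (hv e))
    rw [star_trivial] at this
    rw [hR]
    exact this
  have hdet : IsUnit Q.det := hQ.det_pos.ne'.isUnit
  have hsum : ∑ e, c e * R e = n := by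
    have h1 : (Q⁻¹ * Q).trace = n := by
      rw [Matrix.nonsing_inv_mul _ hdet, Matrix.trace_one, Fintype.card_fin]
    rw [← h1, Matrix.trace, hR]
    have h2 : ∀ i, (Q⁻¹ * Q).diag i = ∑ j, ∑ e, c e * (Q⁻¹ i j * (cv (v e) j * cv (v e) i)) := by
      intro i
      rw [Matrix.diag_apply, Matrix.mul_apply]
      apply Finset.sum_congr rfl
      intro j _
      rw [hQdef]
      simp only [mom, Matrix.of_apply, Finset.mul_sum]
      apply Finset.sum_congr rfl
      intro e _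
      ring
    rw [Finset.sum_congr rfl fun i _ => h2 i]
    have h3 : ∀ e, c e * (cv (v e) ⬝ᵥ (Q⁻¹ *ᵥ cv (v e))) =
        ∑ i, ∑ j, c e * (Q⁻¹ i j * (cv (v e) j * cv (v e) i)) := by
      intro e
      simp only [dotProduct, mulVec, Finset.mul_sum]
      apply Finset.sum_congr rfl
      intro i _
      apply Finset.sum_congr rfl
      intro j _
      ring
    dsimp only
    rw [Finset.sum_congr rfl fun e _ => h3 e, Finset.sum_comm]
    apply Finset.sum_congr rfl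
    intro i _
    rw [Finset.sum_comm]
  have hne : Nonempty E := by
    by_contra h
    rw [not_nonempty_iff] at h
    rw [Finset.univ_eq_empty, Finset.sum_empty] at hsum
    have : (0 : ℝ) < n := by exact_mod_cast hn
    linarith
  obtain ⟨e, -, hmin⟩ := (univ : Finset E).exists_min_image R Finset.univ_nonempty
  refine ⟨e, ?_⟩
  have hRe : cv (v e) ⬝ᵥ (Q⁻¹ *ᵥ cv (v e)) = R e := by rw [hR]
  rw [hRe]
  have hL : R e * ∑ f, c f ≤ n := by
    rw [← hsum, Finset.mul_sum]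
    apply Finset.sum_le_sum
    intro f _
    rw [mul_comm]
    exact mul_le_mul_of_nonneg_left (hmin f (Finset.mem_univ _)) (hc f)
  -- Cauchy-Schwarz
  have h1 := norm_ineq hc (by rw [← hQdef]; exact hQ) hμ (by rw [← hQdef]; exact hm) hD
    (Q⁻¹ *ᵥ cv (v e)) e
  rw [hRe, abs_of_pos (hR0 e)] at h1
  have h2 : (∑ f, c f * |cv (v f) ⬝ᵥ (Q⁻¹ *ᵥ cv (v e))|) ^ 2 ≤ (∑ f, c f) * R e := by
    have h3 : ∑ f, c f * (cv (v f) ⬝ᵥ (Q⁻¹ *ᵥ cv (v e))) ^ 2 = R e := by
      rw [← q_mom (fun e => cv (v e)), ← hQdef, Matrix.mulVec_mulVec,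
        Matrix.mul_nonsing_inv _ hdet, Matrix.one_mulVec, dotProduct_comm, hRe]
    have h4 := Finset.sum_mul_sq_le_sq_mul_sq univ (fun f => √(c f))
      (fun f => √(c f) * |cv (v f) ⬝ᵥ (Q⁻¹ *ᵥ cv (v e))|)
    have h5 : ∀ f, √(c f) * (√(c f) * |cv (v f) ⬝ᵥ (Q⁻¹ *ᵥ cv (v e))|) =
        c f * |cv (v f) ⬝ᵥ (Q⁻¹ *ᵥ cv (v e))| := by
      intro f
      rw [← mul_assoc, Real.mul_self_sqrt (hc f)]
    have h6 : ∀ f, √(c f) ^ 2 = c f := fun f => Real.sq_sqrt (hc f)
    have h7 : ∀ f, (√(c f) * |cv (v f) ⬝ᵥ (Q⁻¹ *ᵥ cv (v e))|) ^ 2 =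
        c f * (cv (v f) ⬝ᵥ (Q⁻¹ *ᵥ cv (v e))) ^ 2 := by
      intro f
      rw [mul_pow, h6, sq_abs]
    simp only [h5, h6, h7] at h4
    rw [h3] at h4
    exact h4
  have hN0 : 0 ≤ ∑ f, c f * |cv (v f) ⬝ᵥ (Q⁻¹ *ᵥ cv (v e))| :=
    Finset.sum_nonneg fun f _ => mul_nonneg (hc f) (abs_nonneg _)
  have h3 : (μ * R e) ^ 2 ≤ (D ^ 2 * √n) ^ 2 := by
    calc (μ * R e) ^ 2 ≤ (D ^ 2 * ∑ f, c f * |cv (v f) ⬝ᵥ (Q⁻¹ *ᵥ cv (v e))|) ^ 2 :=
          pow_le_pow_left₀ (mul_nonneg hμ (hR0 e).le) h1 2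
      _ = (D ^ 2) ^ 2 * (∑ f, c f * |cv (v f) ⬝ᵥ (Q⁻¹ *ᵥ cv (v e))|) ^ 2 := by ring
      _ ≤ (D ^ 2) ^ 2 * ((∑ f, c f) * R e) := by gcongr
      _ ≤ (D ^ 2) ^ 2 * n := by
          rw [mul_comm (∑ f, c f)]
          gcongr
      _ = (D ^ 2 * √n) ^ 2 := by rw [mul_pow, Real.sq_sqrt (Nat.cast_nonneg n)]
  exact (abs_le_of_sq_le_sq' h3 (by positivity)).2


/-! ### Reduction of the dimension -/

/-- unimodular transformation of an integral vector to a multiple of a unit vector -/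
theorem exists_unimod {n : ℕ} (k : ℕ) : ∀ w : Fin n → ℤ, w ≠ 0 → ∑ j, |w j| ≤ k →
    ∃ U : Matrix (Fin n) (Fin n) ℤ, U.det = 1 ∧ ∃ (i : Fin n) (g : ℤ), g ≠ 0 ∧
      w ᵥ* U = Pi.single i g := by
  induction k with
  | zero =>
    intro w hw hk
    exfalso
    apply hw
    ext j
    have h1 : |w j| ≤ ∑ j, |w j| :=
      Finset.single_le_sum (f := fun j => |w j|) (fun _ _ => abs_nonneg _) (Finset.mem_univ j)
    have h2 : |w j| ≤ 0 := by
      have := h1.trans hk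
      simpa using this
    simpa using h2
  | succ k ih =>
    intro w hw hk
    by_cases h : ∃ i j, i ≠ j ∧ w i ≠ 0 ∧ w j ≠ 0 ∧ |w j| ≤ |w i|
    · obtain ⟨i, j, hij, hi, hj, hle⟩ := h
      obtain ⟨s, hs⟩ : ∃ s : ℤ, s = -(Int.sign (w i) * Int.sign (w j)) := ⟨_, rfl⟩
      have hT : ∀ l, (w ᵥ* transvection j i s) l = w l + if l = i then s * w j else 0 := by
        intro l
        rw [transvection, Matrix.vecMul_add, Matrix.vecMul_one, Pi.add_apply]
        congr 1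
        rw [Matrix.vecMul, dotProduct]
        simp only [Matrix.single_apply]
        by_cases hl : l = i
        · subst hl
          simp [mul_comm]
        · rw [if_neg hl]
          apply Finset.sum_eq_zero
          intro m _
          rw [if_neg (fun h => hl h.2.symm), mul_zero]
      have hnew : |w i + s * w j| = |w i| - |w j| := by
        have h1 : w i = Int.sign (w i) * |w i| := (Int.sign_mul_abs (w i)).symm
        have h2 : w j = Int.sign (w j) * |w j| := (Int.sign_mul_abs (w j)).symm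
        have h3 : Int.sign (w j) * Int.sign (w j) = 1 := by
          rcases lt_or_gt_of_ne hj with h | h
          · rw [Int.sign_eq_neg_one_of_neg h]; norm_num
          · rw [Int.sign_eq_one_of_pos h]; norm_num
        have h4 : w i + s * w j = Int.sign (w i) * (|w i| - |w j|) := by
          calc w i + s * w j = Int.sign (w i) * |w i| +
                -(Int.sign (w i) * Int.sign (w j)) * (Int.sign (w j) * |w j|) := by
                rw [← h1, ← h2, hs]
            _ = Int.sign (w i) * |w i| - Int.sign (w i) * (Int.sign (w j) * Int.sign (w j)) *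
                |w j| := by ring
            _ = Int.sign (w i) * (|w i| - |w j|) := by rw [h3]; ring
        rw [h4, abs_mul, Int.abs_sign_of_ne_zero hi, one_mul, abs_of_nonneg (by linarith)]
      have hsum : ∑ l, |(w ᵥ* transvection j i s) l| = ∑ l, |w l| - |w j| := by
        rw [← Finset.add_sum_erase _ _ (Finset.mem_univ i),
          ← Finset.add_sum_erase _ (fun l => |w l|) (Finset.mem_univ i), hT, if_pos rfl, hnew]
        have h5 : ∑ l ∈ univ.erase i, |(w ᵥ* transvection j i s) l| =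
            ∑ l ∈ univ.erase i, |w l| := by
          apply Finset.sum_congr rfl
          intro l hl
          rw [hT, if_neg (Finset.ne_of_mem_erase hl), add_zero]
        rw [h5]
        ring
      have hj1 : 1 ≤ |w j| := Int.one_le_abs hj
      have hdet : (transvection j i s).det = 1 := det_transvection_of_ne j i (Ne.symm hij) s
      obtain ⟨U, hU1, i', g, hg, hU2⟩ := ih (w ᵥ* transvection j i s) (by
        intro h0
        have h6 := congrFun h0 j
        rw [hT, if_neg (Ne.symm hij), add_zero] at h6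
        exact hj h6) (by rw [hsum]; push_cast at hk; linarith)
      refine ⟨transvection j i s * U, ?_, i', g, hg, ?_⟩
      · rw [Matrix.det_mul, hdet, hU1, one_mul]
      · rw [← Matrix.vecMul_vecMul, hU2]
    · push Not at h
      obtain ⟨i, hi⟩ : ∃ i, w i ≠ 0 := by
        by_contra h0
        push Not at h0
        exact hw (funext h0)
      refine ⟨1, Matrix.det_one, i, w i, hi, ?_⟩
      rw [Matrix.vecMul_one]
      ext l
      by_cases hl : l = i
      · subst hl; simp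
      · rw [Pi.single_eq_of_ne hl]
        by_contra hlw
        have h1 := h i l (Ne.symm hl) hi hlw
        have h2 := h l i hl hlw hi
        omega

end Pool.Agent.V8H47.IM
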