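import Pool.Agent.V8H47.IM.Lim

/-! The limit of Hermite's constant and the limit of the second moments of the index. -/

open Matrix Finset Filter Topology

namespace Pool.Agent.V8H47.IM

open Pool.Agent.H160R3.Herm Pool.Agent.TH220.HG Pool.Agent.V8H47.DDom

theorem fac_le {n : ℕ} (hn : 0 < n) :
    (n.factorial : ℝ) ≤ (Real.exp 1 * n) * (n / Real.exp 1) ^ n := by
  obtain ⟨m, rfl⟩ : ∃ m, n = m + 1 := ⟨n - 1, by omega⟩
  have h1 : Stirling.stirlingSeq (m + 1) ≤ Stirling.stirlingSeq 1 :=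
    Stirling.stirlingSeq'_antitone (Nat.zero_le m)
  rw [Stirling.stirlingSeq_one, Stirling.stirlingSeq] at h1
  have h2 : (1 : ℝ) ≤ ((m + 1 : ℕ) : ℝ) := by exact_mod_cast hn
  have h3 : 0 < √(2 * ((m + 1 : ℕ) : ℝ)) * (((m + 1 : ℕ) : ℝ) / Real.exp 1) ^ (m + 1) := by
    positivity
  rw [div_le_iff₀ h3] at h1
  refine h1.trans ?_
  have h4 : √(2 * ((m + 1 : ℕ) : ℝ)) = √2 * √((m + 1 : ℕ) : ℝ) :=
    Real.sqrt_mul (by norm_num) _
  have h5 : √((m + 1 : ℕ) : ℝ) ≤ ((m + 1 : ℕ) : ℝ) := by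
    rw [Real.sqrt_le_left (by positivity)]
    nlinarith
  have h6 : (0 : ℝ) < √2 := by positivity
  calc Real.exp 1 / √2 * (√(2 * ((m + 1 : ℕ) : ℝ)) *
        (((m + 1 : ℕ) : ℝ) / Real.exp 1) ^ (m + 1))
      = (Real.exp 1 * √((m + 1 : ℕ) : ℝ)) * (((m + 1 : ℕ) : ℝ) / Real.exp 1) ^ (m + 1) := by
        rw [h4]; field_simp
    _ ≤ (Real.exp 1 * ((m + 1 : ℕ) : ℝ)) * (((m + 1 : ℕ) : ℝ) / Real.exp 1) ^ (m + 1) := by
        gcongr

theorem le_fac {n : ℕ} : ((n : ℝ) / Real.exp 1) ^ n ≤ (n.factorial : ℝ) := by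
  have h1 := Real.pow_div_factorial_le_exp (n : ℝ) (Nat.cast_nonneg n) n
  have h2 : (0 : ℝ) < n.factorial := by exact_mod_cast Nat.factorial_pos n
  rw [div_le_iff₀ h2] at h1
  have h3 : Real.exp (n : ℝ) = Real.exp 1 ^ n := by
    rw [← Real.exp_nat_mul]; simp
  rw [h3] at h1
  rw [div_pow, div_le_iff₀ (by positivity)]
  linarith

/-- the `n`-th root of a power -/
theorem root_pow {n : ℕ} (hn : 0 < n) {a : ℝ} (ha : 0 ≤ a) : (a ^ n) ^ ((1 : ℝ) / n) = a := by
  have hn' : (n : ℝ) ≠ 0 := by exact_mod_cast hn.ne'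
  rw [← Real.rpow_natCast, ← Real.rpow_mul ha, mul_one_div_cancel hn', Real.rpow_one]

theorem tendsto_fac : Tendsto (fun n : ℕ => (n.factorial : ℝ) ^ ((1 : ℝ) / n) / n) atTop
    (𝓝 (1 / Real.exp 1)) := by
  have hE := Real.exp_pos 1
  have h1 : Tendsto (fun n : ℕ => (Real.exp 1 * (n : ℝ)) ^ ((1 : ℝ) / n) / Real.exp 1) atTop
      (𝓝 (1 / Real.exp 1)) := by
    apply Tendsto.div_const
    have h2 : Tendsto (fun n : ℕ => (n : ℝ) ^ ((1 : ℝ) / n)) atTop (𝓝 1) :=
      tendsto_rpow_div.comp tendsto_natCast_atTop_atTop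
    have h3 : Tendsto (fun n : ℕ => Real.exp 1 ^ ((1 : ℝ) / n)) atTop (𝓝 1) := by
      have h4 : Tendsto (fun n : ℕ => (1 : ℝ) / n) atTop (𝓝 0) :=
        tendsto_one_div_atTop_nhds_zero_nat
      have h5 := ((Real.continuous_const_rpow hE.ne').tendsto 0).comp h4
      rw [Real.rpow_zero] at h5
      exact h5
    have h6 := h3.mul h2
    rw [one_mul] at h6
    refine h6.congr fun n => ?_
    rw [Real.mul_rpow hE.le (Nat.cast_nonneg n)]
  refine tendsto_of_tendsto_of_tendsto_of_le_of_le' tendsto_const_nhds h1 ?_ ?_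
  · filter_upwards [eventually_gt_atTop 0] with n hn
    have hn' : (0 : ℝ) < n := by exact_mod_cast hn
    have h2 : (n : ℝ) / Real.exp 1 ≤ (n.factorial : ℝ) ^ ((1 : ℝ) / n) := by
      have := Real.rpow_le_rpow (by positivity) (le_fac (n := n)) (by positivity :
        (0 : ℝ) ≤ 1 / n)
      rwa [root_pow hn (by positivity)] at this
    rw [le_div_iff₀ hn']
    calc 1 / Real.exp 1 * (n : ℝ) = n / Real.exp 1 := by ring
      _ ≤ _ := h2
  · filter_upwards [eventually_gt_atTop 0] with n hn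
    have hn' : (0 : ℝ) < n := by exact_mod_cast hn
    have h2 : (n.factorial : ℝ) ^ ((1 : ℝ) / n) ≤
        (Real.exp 1 * (n : ℝ)) ^ ((1 : ℝ) / n) * (n / Real.exp 1) := by
      have := Real.rpow_le_rpow (Nat.cast_nonneg _) (fac_le hn) (by positivity :
        (0 : ℝ) ≤ 1 / n)
      rwa [Real.mul_rpow (by positivity) (by positivity), root_pow hn (by positivity)] at this
    rw [div_le_iff₀ hn']
    calc (n.factorial : ℝ) ^ ((1 : ℝ) / n) ≤
        (Real.exp 1 * (n : ℝ)) ^ ((1 : ℝ) / n) * (n / Real.exp 1) := h2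
      _ = (Real.exp 1 * (n : ℝ)) ^ ((1 : ℝ) / n) / Real.exp 1 * n := by ring

theorem root_ge {n : ℕ} (hn : 0 < n) {η : ℝ} (hη : 0 < η) :
    (n.factorial : ℝ) ^ ((1 : ℝ) / n) / n * (hermite n / n) ≤
      maxMoment n η ^ ((1 : ℝ) / n) / n := by
  have hn' : (0 : ℝ) < n := by exact_mod_cast hn
  have hh := hermite_pos hn
  have hJ := maxMoment_nonneg hn hη.le
  have h1 := Real.rpow_le_rpow (by positivity) (le_maxMoment hn hη)
    (by positivity : (0 : ℝ) ≤ 1 / n)
  rw [Real.mul_rpow (Nat.cast_nonneg _) (by positivity), root_pow hn hh.le,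
    Real.mul_rpow (by positivity) hJ, root_pow hn hn'.le] at h1
  rw [div_mul_div_comm, div_le_div_iff₀ (by positivity) hn']
  calc (n.factorial : ℝ) ^ ((1 : ℝ) / n) * hermite n * n
      ≤ (n * maxMoment n η ^ ((1 : ℝ) / n)) * n := by gcongr
    _ = maxMoment n η ^ ((1 : ℝ) / n) * (n * n) := by ring

theorem root_le {n : ℕ} (hn : 0 < n) {η : ℝ} (hη : 0 < η) :
    maxMoment n η ^ ((1 : ℝ) / n) / n ≤
      (1 + η) * ((n.factorial : ℝ) ^ ((1 : ℝ) / n) / n * (hermite n / n)) := by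
  have hn' : (0 : ℝ) < n := by exact_mod_cast hn
  have hh := hermite_pos hn
  have hJ := maxMoment_nonneg hn hη.le
  have h1 := Real.rpow_le_rpow (by positivity) (maxMoment_le hn hη.le)
    (by positivity : (0 : ℝ) ≤ 1 / n)
  rw [Real.mul_rpow (Nat.cast_nonneg _) (by positivity), root_pow hn (by positivity),
    Real.mul_rpow (by positivity) hJ, root_pow hn hn'.le] at h1
  have h2 : (1 + η) * ((n.factorial : ℝ) ^ ((1 : ℝ) / n) / n * (hermite n / n)) =
      (n.factorial : ℝ) ^ ((1 : ℝ) / n) * ((1 + η) * hermite n) / (n * n) := by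
    field_simp
  rw [h2, div_le_div_iff₀ hn' (by positivity)]
  calc maxMoment n η ^ ((1 : ℝ) / n) * (n * n)
      = (n * maxMoment n η ^ ((1 : ℝ) / n)) * n := by ring
    _ ≤ (n.factorial : ℝ) ^ ((1 : ℝ) / n) * ((1 + η) * hermite n) * n := by gcongr

/-- **Q1 as a question on indices.** -/
theorem limit_iff {η : ℕ → ℝ} (hη : ∀ n, 0 < η n) (h0 : Tendsto η atTop (𝓝 0)) (c : ℝ) :
    Tendsto (fun n : ℕ => hermite n / n) atTop (𝓝 c) ↔
      Tendsto (fun n : ℕ => maxMoment n (η n) ^ ((1 : ℝ) / n) / n) atTop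
        (𝓝 (c / Real.exp 1)) := by
  have hE := Real.exp_pos 1
  have hf := tendsto_fac
  constructor
  · intro h
    have h1 : Tendsto (fun n : ℕ => (n.factorial : ℝ) ^ ((1 : ℝ) / n) / n * (hermite n / n)) atTop
        (𝓝 (c / Real.exp 1)) := by
      have := hf.mul h
      rwa [one_div_mul_eq_div] at this
    have h2 : Tendsto (fun n : ℕ => (1 + η n) *
        ((n.factorial : ℝ) ^ ((1 : ℝ) / n) / n * (hermite n / n))) atTop
        (𝓝 (c / Real.exp 1)) := by
      have := (h0.const_add 1).mul h1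
      rwa [add_zero, one_mul] at this
    refine tendsto_of_tendsto_of_tendsto_of_le_of_le' h1 h2 ?_ ?_
    · filter_upwards [eventually_gt_atTop 0] with n hn
      exact root_ge hn (hη n)
    · filter_upwards [eventually_gt_atTop 0] with n hn
      exact root_le hn (hη n)
  · intro h
    have h1 : Tendsto (fun n : ℕ => (n.factorial : ℝ) ^ ((1 : ℝ) / n) / n * (hermite n / n)) atTop
        (𝓝 (c / Real.exp 1)) := by
      have h2 : Tendsto (fun n : ℕ => maxMoment n (η n) ^ ((1 : ℝ) / n) / n / (1 + η n)) atTop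
          (𝓝 (c / Real.exp 1)) := by
        have := h.div (h0.const_add 1) (by norm_num)
        rwa [add_zero, div_one] at this
      refine tendsto_of_tendsto_of_tendsto_of_le_of_le' h2 h ?_ ?_
      · filter_upwards [eventually_gt_atTop 0] with n hn
        have := root_le hn (hη n)
        rw [div_le_iff₀ (by linarith [hη n])]
        linarith
      · filter_upwards [eventually_gt_atTop 0] with n hn
        exact root_ge hn (hη n)
    have h3 := h1.div hf (by positivity)
    have h4 : c / Real.exp 1 / (1 / Real.exp 1) = c := by field_simp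
    rw [h4] at h3
    refine h3.congr' ?_
    filter_upwards [eventually_gt_atTop 0] with n hn
    have hn' : (0 : ℝ) < n := by exact_mod_cast hn
    have h5 : 0 < (n.factorial : ℝ) ^ ((1 : ℝ) / n) / n := by
      have : (0 : ℝ) < n.factorial := by exact_mod_cast Nat.factorial_pos n
      positivity
    show (n.factorial : ℝ) ^ ((1 : ℝ) / n) / n * (hermite n / n) /
      ((n.factorial : ℝ) ^ ((1 : ℝ) / n) / n) = hermite n / n
    field_simp

/-- the maximal index is at least the mean -/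
theorem exists_index {n : ℕ} (hn : 0 < n) {M : Matrix (Fin n) (Fin n) ℝ} (hM : M.det ≠ 0)
    {η κ : ℝ} (hη : 0 < η) (hκ : hermite n ^ n ≤ Real.exp κ * gam M ^ n)
    (hκη : κ * (1 + 1 / η) < 1) :
    ∃ y : Fin n → Fin n → ℤ, (∀ i, nsq M (y i) ≤ (1 + η) * minSq M) ∧
      n.factorial * ((1 - κ * (1 + 1 / η)) * gam M) ^ n ≤
        (n : ℝ) ^ n * ((Matrix.of y).det : ℝ) ^ 2 := by
  classical
  have hn' : (0 : ℝ) < n := by exact_mod_cast hn
  have hd : 0 < M.det ^ 2 := by positivity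
  obtain ⟨E, _, x, p, hx, hp, hs, hb⟩ := near hn hM hη (κ := κ) (by
    calc hermite n ^ n * M.det ^ 2 ≤ (Real.exp κ * gam M ^ n) * M.det ^ 2 := by gcongr
      _ = Real.exp κ * minSq M ^ n := by rw [mul_assoc, gam_pow hn hM]) hκη
  -- a tuple with index at least the mean
  have hsum : ∑ s : Fin n → E, ∏ i, p (s i) = 1 := by
    have h1 := Finset.prod_univ_sum (fun _ : Fin n => (univ : Finset E)) (fun _ e => p e)
    simp only [hs, Finset.prod_const_one] at h1
    rw [h1]
    rfl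
  obtain ⟨s, hsx⟩ : ∃ s : Fin n → E, indexMoment x p ≤
      ((Matrix.of fun i => x (s i)).det : ℝ) ^ 2 := by
    by_contra hcon
    push Not at hcon
    have h1 : indexMoment x p < indexMoment x p := by
      calc indexMoment x p = ∑ s : Fin n → E, (∏ i, p (s i)) *
            ((Matrix.of fun i => x (s i)).det : ℝ) ^ 2 := rfl
        _ < ∑ s : Fin n → E, (∏ i, p (s i)) * indexMoment x p := by
            apply Finset.sum_lt_sum
            · intro s _
              exact mul_le_mul_of_nonneg_left (hcon s).le (Finset.prod_nonneg fun i _ => hp _)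
            · have h2 : ∃ s : Fin n → E, 0 < ∏ i, p (s i) := by
                by_contra h3
                push Not at h3
                have h4 : ∑ s : Fin n → E, ∏ i, p (s i) ≤ 0 :=
                  Finset.sum_nonpos fun s _ => h3 s
                linarith
              obtain ⟨s, h3⟩ := h2
              exact ⟨s, Finset.mem_univ s, mul_lt_mul_of_pos_left (hcon s) h3⟩
        _ = indexMoment x p := by rw [← Finset.sum_mul, hsum, one_mul]
    exact lt_irrefl _ h1
  refine ⟨fun i => x (s i), fun i => (hx _).2, ?_⟩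
  have h2 : M.det ^ 2 * (n.factorial * ((1 - κ * (1 + 1 / η)) * gam M) ^ n) ≤
      M.det ^ 2 * ((n : ℝ) ^ n * ((Matrix.of fun i => x (s i)).det : ℝ) ^ 2) := by
    calc M.det ^ 2 * (n.factorial * ((1 - κ * (1 + 1 / η)) * gam M) ^ n)
        = (1 - κ * (1 + 1 / η)) ^ n * (gam M ^ n * M.det ^ 2) * n.factorial := by
          rw [mul_pow]; ring
      _ = (1 - κ * (1 + 1 / η)) ^ n * minSq M ^ n * n.factorial := by rw [gam_pow hn hM]
      _ ≤ (n : ℝ) ^ n * M.det ^ 2 * indexMoment x p := hb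
      _ ≤ (n : ℝ) ^ n * M.det ^ 2 * ((Matrix.of fun i => x (s i)).det : ℝ) ^ 2 := by gcongr
      _ = M.det ^ 2 * ((n : ℝ) ^ n * ((Matrix.of fun i => x (s i)).det : ℝ) ^ 2) := by ring
  exact le_of_mul_le_mul_left h2 hd

/-- numerical version -/
theorem exists_large_index {n : ℕ} (hn : 0 < n) {M : Matrix (Fin n) (Fin n) ℝ} (hM : M.det ≠ 0)
    (hκ : hermite n ^ n ≤ Real.exp (1 / 4) * gam M ^ n) :
    ∃ y : Fin n → Fin n → ℤ, (∀ i, nsq M (y i) ≤ 2 * minSq M) ∧
      ((n : ℝ) / 2129) ^ n ≤ ((Matrix.of y).det : ℝ) ^ 2 := by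
  obtain ⟨y, hy, h1⟩ := exists_index hn hM (η := 1) one_pos hκ (by norm_num)
  have hn' : (0 : ℝ) < n := by exact_mod_cast hn
  refine ⟨y, fun i => by have := hy i; norm_num at this; exact this, ?_⟩
  have hg := gam_pos hn hM
  have h2 : (1 : ℝ) - 1 / 4 * (1 + 1 / 1) = 1 / 2 := by norm_num
  rw [h2] at h1
  have h3 := hermite_ge hn
  have hE := Real.exp_pos 1
  have h4 : (n : ℝ) ^ n * ((n : ℝ) / 2129) ^ n ≤ (n : ℝ) ^ n * ((Matrix.of y).det : ℝ) ^ 2 := by
    calc (n : ℝ) ^ n * ((n : ℝ) / 2129) ^ n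
        ≤ (n : ℝ) ^ n * ((n : ℝ) / (288 * Real.exp 1 ^ 2)) ^ n := by
          have h5 : 288 * Real.exp 1 ^ 2 ≤ 2129 := by
            have := Real.exp_one_lt_d9
            nlinarith
          gcongr
      _ = (n / Real.exp 1) ^ n * ((1 / 2) ^ n * ((n : ℝ) / 144) ^ n *
            (1 / Real.exp 1) ^ n) := by
          rw [← mul_pow, ← mul_pow, ← mul_pow, ← mul_pow]
          congr 1
          field_simp
          norm_num
      _ ≤ n.factorial * ((1 / 2) ^ n * ((n : ℝ) / 144) ^ n * (1 / Real.exp 1) ^ n) := by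
          have := le_fac (n := n)
          gcongr
      _ ≤ n.factorial * ((1 / 2) ^ n * hermite n ^ n * (1 / Real.exp 1) ^ n) := by gcongr
      _ ≤ n.factorial * ((1 / 2) ^ n * (Real.exp (1 / 4) * gam M ^ n) *
            (1 / Real.exp 1) ^ n) := by gcongr
      _ = n.factorial * ((1 / 2) ^ n * gam M ^ n) * (Real.exp (1 / 4) * (1 / Real.exp 1) ^ n) := by
          ring
      _ ≤ n.factorial * ((1 / 2) ^ n * gam M ^ n) * 1 := by
          have h6 : Real.exp (1 / 4) * (1 / Real.exp 1) ^ n ≤ 1 := by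
            have h7 : (1 / Real.exp 1) ^ n ≤ 1 / Real.exp 1 := by
              apply pow_le_of_le_one (by positivity) _ hn.ne'
              rw [div_le_one hE]
              have := Real.add_one_le_exp 1
              linarith
            have h8 : Real.exp (1 / 4) ≤ Real.exp 1 := Real.exp_le_exp.mpr (by norm_num)
            calc Real.exp (1 / 4) * (1 / Real.exp 1) ^ n ≤ Real.exp 1 * (1 / Real.exp 1) := by
                  gcongr
              _ = 1 := by field_simp
          gcongr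
      _ = n.factorial * (1 / 2 * gam M) ^ n := by rw [mul_pow]; ring
      _ ≤ (n : ℝ) ^ n * ((Matrix.of y).det : ℝ) ^ 2 := h1
  exact le_of_mul_le_mul_left h4 (by positivity)

end Pool.Agent.V8H47.IM
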