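import Pool.Agent.V8H47.IM.Dicing
import Pool.Agent.V8H47.IM.Equiv
import Pool.Agent.V8H47.DDom.Dual

/-! Hermite invariants of forms `∑ c_e (v_e · x)²` with integral `v_e` and bounded minors. -/

open Matrix Finset

namespace Pool.Agent.V8H47.IM

open Pool.Agent.H160R3.Herm Pool.Agent.TH220.HG Pool.Agent.V8H47.DDom

theorem mom_eq_sum {n : ℕ} {E : Type} [Fintype E] (a : E → Fin n → ℝ) (c : E → ℝ) :
    mom a c = ∑ e, c e • vecMulVec (a e) (a e) := by
  ext i j
  rw [Matrix.sum_apply]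
  simp [mom, vecMulVec]

theorem mom_mul {n : ℕ} {E : Type} [Fintype E] (a : E → Fin n → ℝ) (c : E → ℝ)
    (B : Matrix (Fin n) (Fin n) ℝ) : B * mom a c * Bᵀ = mom (fun e => B *ᵥ a e) c := by
  rw [mom_eq_sum, mom_eq_sum, Matrix.mul_sum, Matrix.sum_mul]
  apply Finset.sum_congr rfl
  intro e _
  rw [Matrix.mul_smul, Matrix.smul_mul, Matrix.mul_vecMulVec, Matrix.vecMulVec_mul,
    Matrix.vecMul_transpose]

theorem cong_mom {n : ℕ} {E : Type} [Fintype E] (v : E → Fin n → ℤ) (c : E → ℝ)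
    (U : Matrix (Fin n) (Fin n) ℤ) : cong U (mom (fun e => cv (v e)) c) =
      mom (fun e => cv (v e ᵥ* U)) c := by
  have h1 := mom_mul (fun e => cv (v e)) c (U.map (Int.cast : ℤ → ℝ))ᵀ
  rw [Matrix.transpose_transpose] at h1
  rw [cong, h1]
  congr 1
  funext e
  ext j
  simp [cv, Matrix.mulVec, Matrix.vecMul, dotProduct, mul_comm]

theorem mom_subtype {n : ℕ} {E : Type} [Fintype E] [DecidableEq E] (v : E → Fin n → ℤ) (c : E → ℝ)
    [Fintype {e // v e ≠ 0}] :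
    mom (fun e : {e // v e ≠ 0} => cv (v e.1)) (fun e => c e.1) = mom (fun e => cv (v e)) c := by
  classical
  ext i j
  simp only [mom, Matrix.of_apply]
  have h1 : ∑ e, c e * (cv (v e) i * cv (v e) j) =
      ∑ e ∈ univ.filter (fun e => v e ≠ 0), c e * (cv (v e) i * cv (v e) j) := by
    symm
    apply Finset.sum_subset (Finset.filter_subset _ _)
    intro e _ he
    rw [Finset.mem_filter] at he
    push Not at he
    have h2 := he (Finset.mem_univ e)
    rw [h2]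
    simp [cv]
  rw [h1]
  symm
  apply Finset.sum_subtype
  intro e
  simp

theorem minor_step {n : ℕ} {E : Type} {v : E → Fin (n + 1) → ℤ} {D : ℝ}
    (hD : ∀ s : Fin (n + 1) → E, |((Matrix.of fun i => v (s i)).det : ℝ)| ≤ D)
    {U : Matrix (Fin (n + 1)) (Fin (n + 1)) ℤ} (hU : U.det = 1) {e : E} {i : Fin (n + 1)} {g : ℤ}
    (hg : g ≠ 0) (he : v e ᵥ* U = Pi.single i g) (s : Fin n → E) :
    |((Matrix.of fun j => fun k => (v (s j) ᵥ* U) (i.succAbove k)).det : ℝ)| ≤ D := by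
  obtain ⟨W, hW⟩ : ∃ W : Matrix (Fin (n + 1)) (Fin (n + 1)) ℤ,
      W = Matrix.of fun r => v ((i.insertNth e s : Fin (n + 1) → E) r) := ⟨_, rfl⟩
  have h1 : |(W.det : ℝ)| ≤ D := by rw [hW]; exact hD _
  have hrow : ∀ r l, (W * U) r l = (v ((i.insertNth e s : Fin (n + 1) → E) r) ᵥ* U) l := by
    intro r l
    rw [hW]
    rfl
  have h2 : (W * U).det = g * (Matrix.of fun j => fun k =>
      (v (s j) ᵥ* U) (i.succAbove k)).det := by
    rw [Matrix.det_succ_row (W * U) i, Finset.sum_eq_single i]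
    · have h3 : (W * U) i i = g := by
        rw [hrow, Fin.insertNth_apply_same, he, Pi.single_eq_same]
      have h4 : (-1 : ℤ) ^ ((i : ℕ) + (i : ℕ)) = 1 := by
        rw [← two_mul, pow_mul]; simp
      have h5 : (W * U).submatrix i.succAbove i.succAbove =
          Matrix.of fun j => fun k => (v (s j) ᵥ* U) (i.succAbove k) := by
        ext j k
        rw [Matrix.submatrix_apply, hrow, Fin.insertNth_apply_succAbove]
        rfl
      rw [h3, h4, h5, one_mul]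
    · intro j _ hj
      have h3 : (W * U) i j = 0 := by
        rw [hrow, Fin.insertNth_apply_same, he, Pi.single_eq_of_ne hj]
      rw [h3]
      ring
    · intro h
      exact absurd (Finset.mem_univ i) h
  rw [Matrix.det_mul, hU, mul_one] at h2
  rw [h2, Int.cast_mul, abs_mul] at h1
  refine le_trans ?_ h1
  have h3 : (1 : ℝ) ≤ |(g : ℝ)| := by
    have := Int.one_le_abs hg
    exact_mod_cast this
  exact le_mul_of_one_le_left (abs_nonneg _) h3

theorem form_bound (D : ℝ) (n : ℕ) : ∀ {E : Type} [Fintype E] (v : E → Fin n → ℤ) (c : E → ℝ),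
    (∀ e, 0 ≤ c e) → (mom (fun e => cv (v e)) c).PosDef → ∀ {μ : ℝ}, 0 < μ →
    MinGe (mom (fun e => cv (v e)) c) μ →
    (∀ s : Fin n → E, |((Matrix.of fun i => v (s i)).det : ℝ)| ≤ D) →
    μ ^ n ≤ (D ^ 2) ^ n * √n.factorial * (mom (fun e => cv (v e)) c).det := by
  classical
  induction n with
  | zero =>
    intro E _ v c _ _ μ _ _ _
    simp
  | succ n ih =>
    intro E _ v0 c0 hc0 hQ0 μ hμ hm0 hD0
    -- nonzero vectors only
    have hsub := mom_subtype v0 c0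
    rw [← hsub] at hQ0 hm0 ⊢
    obtain ⟨v, hvdef⟩ : ∃ v : {e // v0 e ≠ 0} → Fin (n + 1) → ℤ, v = fun e => v0 e.1 := ⟨_, rfl⟩
    obtain ⟨c, hcdef⟩ : ∃ c : {e // v0 e ≠ 0} → ℝ, c = fun e => c0 e.1 := ⟨_, rfl⟩
    have hc : ∀ e, 0 ≤ c e := by rw [hcdef]; exact fun e => hc0 e.1
    have hv : ∀ e, v e ≠ 0 := by rw [hvdef]; exact fun e => e.2
    have hD : ∀ s : Fin (n + 1) → {e // v0 e ≠ 0},
        |((Matrix.of fun i => v (s i)).det : ℝ)| ≤ D := by
      rw [hvdef]; exact fun s => hD0 fun i => (s i).1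
    have hrw : (fun e : {e // v0 e ≠ 0} => cv (v0 e.1)) = fun e => cv (v e) := by rw [hvdef]
    rw [hrw, ← hcdef] at hQ0 hm0 ⊢
    clear hsub hrw
    obtain ⟨e, he⟩ := short_dual (Nat.succ_pos n) hc hQ0 hμ.le hm0 hD hv
    obtain ⟨U, hU, i, g, hg, hUe⟩ := exists_unimod (∑ j, |v e j|).toNat (v e) (hv e)
      (Int.self_le_toNat _)
    obtain ⟨Q, hQ⟩ : ∃ Q, Q = mom (fun e => cv (v e)) c := ⟨_, rfl⟩
    rw [← hQ] at hQ0 hm0 he ⊢
    have hU0 : U.det ≠ 0 := by rw [hU]; exact one_ne_zero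
    have hQ1 := posDef_cong hU0 hQ0
    have hm1 := minGe_cong hU0 hm0
    have hd1 : (cong U Q).det = Q.det := by rw [det_cong, hU]; simp
    have hQ2 := posDef_del hQ1 i
    have hm2 := minGe_del hm1 i
    have hd2 := det_del hQ1.det_pos.ne' i
    have hform : del (cong U Q) i =
        mom (fun f => cv (fun k => (v f ᵥ* U) (i.succAbove k))) c := by
      rw [hQ, cong_mom]
      rfl
    rw [hform] at hQ2 hm2 hd2
    have hIH := ih (fun f => fun k => (v f ᵥ* U) (i.succAbove k)) c hc hQ2 hμ hm2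
      (fun s => minor_step hD hU hg hUe s)
    -- the dual vector
    have hR : cv (v e) ⬝ᵥ (Q⁻¹ *ᵥ cv (v e)) = (g : ℝ) ^ 2 * (cong U Q)⁻¹ i i := by
      obtain ⟨V, hV⟩ : ∃ V : Matrix (Fin (n + 1)) (Fin (n + 1)) ℝ,
        V = U.map (Int.cast : ℤ → ℝ) := ⟨_, rfl⟩
      have hVu : IsUnit V.det := by rw [hV, det_map_cast, hU]; simp
      have hQu : IsUnit Q.det := hQ0.det_pos.ne'.isUnit
      have hCu : IsUnit (cong U Q).det := hQ1.det_pos.ne'.isUnit
      have h1 : Vᵀ *ᵥ cv (v e) = (g : ℝ) • Pi.single i 1 := by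
        have h2 : Vᵀ *ᵥ cv (v e) = cv (v e ᵥ* U) := by
          rw [hV]
          ext j
          simp [cv, Matrix.mulVec, Matrix.vecMul, dotProduct, mul_comm]
        rw [h2, hUe]
        ext j
        by_cases hj : j = i
        · subst hj; simp [cv]
        · simp [cv, Pi.single_eq_of_ne hj]
      have h3 : (cong U Q)⁻¹ *ᵥ (Vᵀ *ᵥ cv (v e)) = V⁻¹ *ᵥ (Q⁻¹ *ᵥ cv (v e)) := by
        have h4 : (cong U Q) *ᵥ (V⁻¹ *ᵥ (Q⁻¹ *ᵥ cv (v e))) = Vᵀ *ᵥ cv (v e) := by
          rw [cong, ← hV, Matrix.mulVec_mulVec, Matrix.mulVec_mulVec]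
          congr 1
          rw [Matrix.mul_assoc (Vᵀ * Q), Matrix.mul_nonsing_inv _ hVu, Matrix.mul_one,
            Matrix.mul_assoc, Matrix.mul_nonsing_inv _ hQu, Matrix.mul_one]
        rw [← h4, Matrix.mulVec_mulVec, Matrix.nonsing_inv_mul _ hCu, Matrix.one_mulVec]
      have h5 : (Vᵀ *ᵥ cv (v e)) ⬝ᵥ ((cong U Q)⁻¹ *ᵥ (Vᵀ *ᵥ cv (v e))) =
          cv (v e) ⬝ᵥ (Q⁻¹ *ᵥ cv (v e)) := by
        rw [h3, Matrix.mulVec_transpose, ← Matrix.dotProduct_mulVec, Matrix.mulVec_mulVec,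
          Matrix.mul_nonsing_inv _ hVu, Matrix.one_mulVec]
      rw [← h5, h1, Matrix.mulVec_smul, dotProduct_smul, smul_dotProduct, smul_eq_mul, smul_eq_mul,
        single_one_dotProduct, Matrix.mulVec_single_one]
      simp only [Matrix.col_apply]
      ring
    have hg1 : (1 : ℝ) ≤ (g : ℝ) ^ 2 := by
      have h1 := Int.one_le_abs hg
      have h2 : (1 : ℝ) ≤ |(g : ℝ)| := by exact_mod_cast h1
      rw [← sq_abs]
      nlinarith
    have hi0 : 0 < (cong U Q)⁻¹ i i := hQ1.inv.diag_pos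
    have hle : (cong U Q)⁻¹ i i ≤ cv (v e) ⬝ᵥ (Q⁻¹ *ᵥ cv (v e)) := by
      rw [hR]; nlinarith
    have hQd : 0 < Q.det := hQ0.det_pos
    rw [hd2, hd1] at hIH
    have hDn : 0 ≤ (D ^ 2) ^ n * √n.factorial := by positivity
    calc μ ^ (n + 1) = μ * μ ^ n := by ring
      _ ≤ μ * ((D ^ 2) ^ n * √n.factorial * ((cong U Q)⁻¹ i i * Q.det)) := by gcongr
      _ = (D ^ 2) ^ n * √n.factorial * (μ * (cong U Q)⁻¹ i i) * Q.det := by ring
      _ ≤ (D ^ 2) ^ n * √n.factorial * (μ * (cv (v e) ⬝ᵥ (Q⁻¹ *ᵥ cv (v e)))) * Q.det := by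
          gcongr
      _ ≤ (D ^ 2) ^ n * √n.factorial * (D ^ 2 * √((n + 1 : ℕ) : ℝ)) * Q.det := by
          gcongr
      _ = (D ^ 2) ^ (n + 1) * √(n + 1).factorial * Q.det := by
          rw [Nat.factorial_succ, Nat.cast_mul, Real.sqrt_mul (Nat.cast_nonneg _)]
          ring

/-- **The dual lattice.** -/
theorem dual_frame {n : ℕ} (hn : 0 < n) {M : Matrix (Fin n) (Fin n) ℝ} (hM : M.det ≠ 0)
    {E : Type} [Fintype E] (x : E → Fin n → ℤ) {c : E → ℝ} (hx : ∀ e, x e ≠ 0)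
    (hc0 : ∀ e, 0 ≤ c e) (hc : mom (fun e => lv M (x e)) c = 1) {D : ℝ}
    (hD : ∀ s : Fin n → E, |((Matrix.of fun i => x (s i)).det : ℝ)| ≤ D) :
    gam (dual M) ^ n ≤ (D ^ 2) ^ n * √n.factorial ∧
      minSq M * minSq (dual M) ≤ D ^ 2 * √n := by
  have hMu : IsUnit M.det := isUnit_iff_ne_zero.mpr hM
  have hdd : (dual M).det ≠ 0 := by rw [det_dual]; exact inv_ne_zero hM
  have hform : mom (fun e => cv (x e)) c = gram (dual M) := by
    have h1 := mom_mul (fun e => cv (x e)) c M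
    have h2 : mom (fun e => M *ᵥ cv (x e)) c = 1 := hc
    rw [h2] at h1
    have h3 : M⁻¹ * (M * mom (fun e => cv (x e)) c * Mᵀ) * (Mᵀ)⁻¹ =
        mom (fun e => cv (x e)) c := by
      have hMt : IsUnit (Mᵀ).det := by rw [Matrix.det_transpose]; exact hMu
      rw [Matrix.mul_assoc M, ← Matrix.mul_assoc M⁻¹, Matrix.nonsing_inv_mul _ hMu,
        Matrix.one_mul, Matrix.mul_assoc, Matrix.mul_nonsing_inv _ hMt, Matrix.mul_one]
    rw [← h3, h1, Matrix.mul_one, DDom.gram, dual, Matrix.transpose_transpose,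
      Matrix.transpose_nonsing_inv]
  have hpd := posDef_gram hdd
  have hmin := minGe_gram (dual M)
  have hμ := minSq_pos hn hdd
  rw [← hform] at hpd hmin
  constructor
  · have h1 := form_bound D n x c hc0 hpd hμ hmin hD
    rw [hform, det_gram] at h1
    have hd : 0 < (dual M).det ^ 2 := by positivity
    have h2 : (dual M).det ^ 2 * gam (dual M) ^ n ≤
        (dual M).det ^ 2 * ((D ^ 2) ^ n * √n.factorial) := by
      calc (dual M).det ^ 2 * gam (dual M) ^ n = minSq (dual M) ^ n := by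
            rw [← gam_pow hn hdd]; ring
        _ ≤ (D ^ 2) ^ n * √n.factorial * (dual M).det ^ 2 := h1
        _ = _ := by ring
    exact le_of_mul_le_mul_left h2 hd
  · obtain ⟨e, he⟩ := short_dual hn hc0 hpd hμ.le hmin hD hx
    refine le_trans ?_ he
    rw [hform]
    have h1 : (gram (dual M))⁻¹ = gram M := by
      rw [gram_dual, Matrix.nonsing_inv_nonsing_inv]
      rw [det_gram]
      exact (pow_ne_zero 2 hM).isUnit
    rw [h1]
    have h2 : cv (x e) ⬝ᵥ (gram M *ᵥ cv (x e)) = nsq M (x e) := q_gram M (x e)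
    rw [h2, mul_comm]
    exact mul_le_mul_of_nonneg_left (minSq_le M _ (hx e)) hμ.le

end Pool.Agent.V8H47.IM
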