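import Pool.Agent.V8H47.IM.DualBound

/-! Lattices with forms `∑ c_e (v_e · x)²`, `v_e` integral with bounded minors, and their duals. -/

open Matrix Finset

namespace Pool.Agent.V8H47.IM

open Pool.Agent.H160R3.Herm Pool.Agent.TH220.HG Pool.Agent.V8H47.DDom

/-- The squared length of the vector `M y` of the lattice `M ℤⁿ` is `∑ c_e (v_e · y)²` for some
integral vectors `v_e ≠ 0` and weights `c_e ≥ 0`, where all determinants of `n` of the vectors `v_e`
have absolute value at most `D`. For `D = 1` these are the lattices whose Voronoi cell is a zonotope,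
in particular all lattices of cuts and of flows of graphs with weights. -/
def Dicing (D : ℝ) {n : ℕ} (M : Matrix (Fin n) (Fin n) ℝ) : Prop :=
  ∃ (m : ℕ) (v : Fin m → Fin n → ℤ) (c : Fin m → ℝ), (∀ e, v e ≠ 0) ∧ (∀ e, 0 ≤ c e) ∧
    (∀ i j, DDom.gram M i j = ∑ e, c e * ((v e i : ℝ) * (v e j : ℝ))) ∧
    ∀ s : Fin n → Fin m, |((Matrix.of fun i => v (s i)).det : ℝ)| ≤ D

theorem root_le_of_pow {n : ℕ} (hn : 0 < n) {a b : ℝ} (hb : 0 ≤ b) (h : a ^ n ≤ b ^ n) : a ≤ b :=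
  le_of_not_gt fun hlt => absurd h (not_le.mpr (pow_lt_pow_left₀ hlt hb hn.ne'))

theorem Dicing.self {D : ℝ} {n : ℕ} (hn : 0 < n) {M : Matrix (Fin n) (Fin n) ℝ} (hM : M.det ≠ 0)
    (h : Dicing D M) : gam M ≤ D ^ 2 * √n := by
  obtain ⟨m, v, c, hv, hc, hform, hD⟩ := h
  have hg : mom (fun e => cv (v e)) c = DDom.gram M := by
    ext i j
    rw [hform i j]
    rfl
  have hpd := posDef_gram hM
  have hmin := minGe_gram M
  rw [← hg] at hpd hmin
  have h1 := form_bound D n v c hc hpd (minSq_pos hn hM) hmin hD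
  rw [hg, det_gram] at h1
  have hd : 0 < M.det ^ 2 := by positivity
  have h2 : M.det ^ 2 * gam M ^ n ≤ M.det ^ 2 * ((D ^ 2) ^ n * √n.factorial) := by
    calc M.det ^ 2 * gam M ^ n = minSq M ^ n := by rw [← gam_pow hn hM]; ring
      _ ≤ (D ^ 2) ^ n * √n.factorial * M.det ^ 2 := h1
      _ = _ := by ring
  have h3 := le_of_mul_le_mul_left h2 hd
  apply root_le_of_pow hn (by positivity)
  refine h3.trans ?_
  rw [mul_pow]
  apply mul_le_mul_of_nonneg_left _ (by positivity)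
  have h4 : (√(n : ℝ)) ^ n = √((n : ℝ) ^ n) := by
    rw [Real.sqrt_eq_rpow, Real.sqrt_eq_rpow, ← Real.rpow_natCast, ← Real.rpow_natCast,
      ← Real.rpow_mul (Nat.cast_nonneg n), ← Real.rpow_mul (Nat.cast_nonneg n), mul_comm]
  rw [h4]
  apply Real.sqrt_le_sqrt
  exact_mod_cast Nat.factorial_le_pow n

theorem Dicing.dual_frame {D : ℝ} {n : ℕ} {M : Matrix (Fin n) (Fin n) ℝ} (hM : M.det ≠ 0)
    {m : ℕ} {v : Fin m → Fin n → ℤ} {c : Fin m → ℝ}
    (hform : ∀ i j, DDom.gram M i j = ∑ e, c e * ((v e i : ℝ) * (v e j : ℝ))) :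
    mom (fun e => lv (dual M) (v e)) c = 1 := by
  have hMu : IsUnit M.det := isUnit_iff_ne_zero.mpr hM
  have hg : mom (fun e => cv (v e)) c = DDom.gram M := by
    ext i j
    rw [hform i j]
    rfl
  have h1 := mom_mul (fun e => cv (v e)) c (dual M)
  have h2 : mom (fun e => lv (dual M) (v e)) c = mom (fun e => dual M *ᵥ cv (v e)) c := rfl
  rw [h2, ← h1, hg, DDom.gram, dual, Matrix.transpose_transpose]
  have hMt : IsUnit (Mᵀ).det := by rw [Matrix.det_transpose]; exact hMu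
  rw [Matrix.transpose_nonsing_inv, ← Matrix.mul_assoc, Matrix.nonsing_inv_mul _ hMt,
    Matrix.one_mul, Matrix.mul_nonsing_inv _ hMu]

theorem Dicing.dual_bound {D : ℝ} {n : ℕ} (hn : 0 < n) {M : Matrix (Fin n) (Fin n) ℝ}
    (hM : M.det ≠ 0) (h : Dicing D M) : gam (dual M) ^ n ≤ Real.exp 1 ^ n * D ^ 2 := by
  obtain ⟨m, v, c, hv, hc, hform, hD⟩ := h
  have hdd : (dual M).det ≠ 0 := by rw [det_dual]; exact inv_ne_zero hM
  have h1 := frame_bound hn hdd v hv hc (Dicing.dual_frame (D := D) hM hform) hD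
  have h2 := le_fac (n := n)
  have hf : (0 : ℝ) < n.factorial := by exact_mod_cast Nat.factorial_pos n
  rw [div_pow, div_le_iff₀ (by positivity)] at h2
  have h3 : (n.factorial : ℝ) * gam (dual M) ^ n ≤
      n.factorial * (Real.exp 1 ^ n * D ^ 2) := by
    calc (n.factorial : ℝ) * gam (dual M) ^ n ≤ (n : ℝ) ^ n * D ^ 2 := h1
      _ ≤ (n.factorial * Real.exp 1 ^ n) * D ^ 2 := by gcongr
      _ = _ := by ring
  exact le_of_mul_le_mul_left h3 hf

theorem Dicing.product {D : ℝ} {n : ℕ} (hn : 0 < n) {M : Matrix (Fin n) (Fin n) ℝ}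
    (hM : M.det ≠ 0) (h : Dicing D M) : minSq M * minSq (dual M) ≤ D ^ 2 * √n := by
  obtain ⟨m, v, c, hv, hc, hform, hD⟩ := h
  have hdd : (dual M).det ≠ 0 := by rw [det_dual]; exact inv_ne_zero hM
  have h1 := (IM.dual_frame hn hdd v hv hc (Dicing.dual_frame (D := D) hM hform) hD).2
  have h2 : dual (dual M) = M := by
    unfold dual
    rw [Matrix.transpose_nonsing_inv, Matrix.transpose_transpose, Matrix.nonsing_inv_nonsing_inv]
    exact isUnit_iff_ne_zero.mpr hM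
  rw [h2] at h1
  linarith

/-- sublattices of the first kind -/
theorem sub_self {D : ℝ} {n : ℕ} (hn : 0 < n) {C : Matrix (Fin n) (Fin n) ℝ} (hC : C.det ≠ 0)
    {K : Matrix (Fin n) (Fin n) ℤ} (hK : K.det ≠ 0)
    (h : Dicing D (C * K.map (Int.cast : ℤ → ℝ))) :
    gam C ≤ (|K.det| : ℝ) ^ ((2 : ℝ) / n) * (D ^ 2 * √n) := by
  have hd : (C * K.map (Int.cast : ℤ → ℝ)).det ≠ 0 := by
    rw [Matrix.det_mul, det_map_cast]
    exact mul_ne_zero hC (by exact_mod_cast hK)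
  refine (gam_sub hn hC hK).trans ?_
  exact mul_le_mul_of_nonneg_left (h.self hn hd) (by positivity)

theorem gam_dual_dual {n : ℕ} {M : Matrix (Fin n) (Fin n) ℝ} (hM : M.det ≠ 0) :
    dual (dual M) = M := by
  unfold dual
  rw [Matrix.transpose_nonsing_inv, Matrix.transpose_transpose, Matrix.nonsing_inv_nonsing_inv]
  exact isUnit_iff_ne_zero.mpr hM

/-- sublattices with a dual of this kind -/
theorem sub_dual {D : ℝ} {n : ℕ} (hn : 0 < n) {C : Matrix (Fin n) (Fin n) ℝ} (hC : C.det ≠ 0)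
    {K : Matrix (Fin n) (Fin n) ℤ} (hK : K.det ≠ 0)
    (h : Dicing D (dual (C * K.map (Int.cast : ℤ → ℝ)))) :
    gam C ^ n ≤ Real.exp 1 ^ n * (|(K.det : ℝ)| * D) ^ 2 := by
  have hd : (C * K.map (Int.cast : ℤ → ℝ)).det ≠ 0 := by
    rw [Matrix.det_mul, det_map_cast]
    exact mul_ne_zero hC (by exact_mod_cast hK)
  have hdd : (dual (C * K.map (Int.cast : ℤ → ℝ))).det ≠ 0 := by
    rw [det_dual]; exact inv_ne_zero hd
  have h1 := h.dual_bound hn hdd
  rw [gam_dual_dual hd] at h1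
  have h2 := gam_sub hn hC hK
  have hK' : (0 : ℝ) < |(K.det : ℝ)| := by
    rw [abs_pos]; exact_mod_cast hK
  have hn' : (n : ℝ) ≠ 0 := by exact_mod_cast hn.ne'
  have h3 : ((|K.det| : ℝ) ^ ((2 : ℝ) / n)) ^ n = (|K.det| : ℝ) ^ 2 := by
    rw [← Real.rpow_natCast, ← Real.rpow_mul hK'.le, div_mul_cancel₀ _ hn']
    norm_num
  have hg := gam_pos hn hC
  calc gam C ^ n ≤ ((|K.det| : ℝ) ^ ((2 : ℝ) / n) *
        gam (C * K.map (Int.cast : ℤ → ℝ))) ^ n := pow_le_pow_left₀ hg.le h2 n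
    _ = (|K.det| : ℝ) ^ 2 * gam (C * K.map (Int.cast : ℤ → ℝ)) ^ n := by rw [mul_pow, h3]
    _ ≤ (|K.det| : ℝ) ^ 2 * (Real.exp 1 ^ n * D ^ 2) := by gcongr
    _ = _ := by ring

end Pool.Agent.V8H47.IM
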