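import Pool.Agent.V8H47.IM.Sup

/-! Hermite's constant as the supremum of the second moments of the index. -/

open Matrix Finset Filter Topology

namespace Pool.Agent.V8H47.IM

open Pool.Agent.H160R3.Herm Pool.Agent.TH220.HG Pool.Agent.V8H47.DDom

/-- the second moments of the index of the sublattice generated by `n` independent random vectors,
for all lattices `M ℤⁿ` and all distributions (with finite support) on the vectors whose squared
length is at most `1 + η` times the minimum -/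
def Moments (n : ℕ) (η : ℝ) : Set ℝ :=
  {r | ∃ (M : Matrix (Fin n) (Fin n) ℝ) (m : ℕ) (x : Fin m → Fin n → ℤ) (p : Fin m → ℝ),
    M.det ≠ 0 ∧ (∀ e, nsq M (x e) ≤ (1 + η) * minSq M) ∧ (∀ e, 0 ≤ p e) ∧ ∑ e, p e = 1 ∧
    r = indexMoment x p}

/-- the supremum of the second moments of the index -/
noncomputable def maxMoment (n : ℕ) (η : ℝ) : ℝ := sSup (Moments n η)

theorem moments_le {n : ℕ} (hn : 0 < n) {η : ℝ} (hη : 0 ≤ η) {r : ℝ} (hr : r ∈ Moments n η) :
    (n : ℝ) ^ n * r ≤ n.factorial * ((1 + η) * hermite n) ^ n := by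
  obtain ⟨M, m, x, p, hM, hx, hp, hs, rfl⟩ := hr
  refine (indexMoment_le hn hM x hx hp hs).trans ?_
  have h1 := gam_pos hn hM
  have h2 : gam M ≤ hermite n := le_hermite hn M hM
  have hf : (0 : ℝ) ≤ n.factorial := Nat.cast_nonneg _
  gcongr

theorem moments_le' {n : ℕ} (hn : 0 < n) {η : ℝ} (hη : 0 ≤ η) {r : ℝ} (hr : r ∈ Moments n η) :
    r ≤ n.factorial * ((1 + η) * hermite n) ^ n / (n : ℝ) ^ n := by
  have hn' : (0 : ℝ) < n := by exact_mod_cast hn
  rw [le_div_iff₀ (by positivity)]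
  linarith [moments_le hn hη hr]

theorem moments_bdd {n : ℕ} (hn : 0 < n) {η : ℝ} (hη : 0 ≤ η) : BddAbove (Moments n η) :=
  ⟨_, fun _ hr => moments_le' hn hη hr⟩

theorem mem_moments {n : ℕ} {η : ℝ} {M : Matrix (Fin n) (Fin n) ℝ} (hM : M.det ≠ 0) {E : Type}
    [Fintype E] (x : E → Fin n → ℤ) (p : E → ℝ)
    (hx : ∀ e, nsq M (x e) ≤ (1 + η) * minSq M) (hp : ∀ e, 0 ≤ p e) (hs : ∑ e, p e = 1) :
    indexMoment x p ∈ Moments n η := by
  classical
  let f := Fintype.equivFin E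
  refine ⟨M, Fintype.card E, x ∘ f.symm, p ∘ f.symm, hM, fun e => hx _, fun e => hp _, ?_, ?_⟩
  · rw [← hs, ← Equiv.sum_comp f.symm]
    rfl
  · unfold indexMoment
    rw [← Equiv.sum_comp (Equiv.arrowCongr (Equiv.refl (Fin n)) f)]
    apply Finset.sum_congr rfl
    intro s _
    simp [Equiv.arrowCongr]

theorem moments_nonempty {n : ℕ} (hn : 0 < n) {η : ℝ} (hη : 0 ≤ η) : (Moments n η).Nonempty := by
  have h1 : (1 : Matrix (Fin n) (Fin n) ℝ).det ≠ 0 := by simp
  obtain ⟨w, -, hw⟩ := exists_min hn h1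
  refine ⟨_, mem_moments h1 (fun _ : Unit => w) (fun _ => 1) (fun _ => ?_) (fun _ => by norm_num)
    (by simp)⟩
  have h2 := minSq_pos hn h1
  rw [hw]
  nlinarith

theorem maxMoment_le {n : ℕ} (hn : 0 < n) {η : ℝ} (hη : 0 ≤ η) :
    (n : ℝ) ^ n * maxMoment n η ≤ n.factorial * ((1 + η) * hermite n) ^ n := by
  have hn' : (0 : ℝ) < n := by exact_mod_cast hn
  have h1 : maxMoment n η ≤ n.factorial * ((1 + η) * hermite n) ^ n / (n : ℝ) ^ n :=
    csSup_le (moments_nonempty hn hη) fun r hr => moments_le' hn hη hr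
  rw [le_div_iff₀ (by positivity)] at h1
  linarith

theorem maxMoment_nonneg {n : ℕ} (hn : 0 < n) {η : ℝ} (hη : 0 ≤ η) : 0 ≤ maxMoment n η := by
  obtain ⟨r, hr⟩ := moments_nonempty hn hη
  refine le_trans ?_ (le_csSup (moments_bdd hn hη) hr)
  obtain ⟨M, m, x, p, hM, hx, hp, hs, rfl⟩ := hr
  exact indexMoment_nonneg x hp

/-- near-optimal lattices exist -/
theorem exists_near {n : ℕ} (hn : 0 < n) {κ : ℝ} (hκ : 0 < κ) :
    ∃ M : Matrix (Fin n) (Fin n) ℝ, M.det ≠ 0 ∧
      hermite n ^ n * M.det ^ 2 ≤ Real.exp κ * minSq M ^ n := by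
  have hn' : (0 : ℝ) < n := by exact_mod_cast hn
  have hh := hermite_pos hn
  have h1 : Real.exp (-(κ / n)) * hermite n < hermite n := by
    have : Real.exp (-(κ / n)) < 1 := Real.exp_lt_one_iff.mpr (by
      have : 0 < κ / n := by positivity
      linarith)
    nlinarith
  obtain ⟨M, hM, h2⟩ := exists_lt_value h1
  refine ⟨M, hM, ?_⟩
  have h3 : Real.exp (-(κ / n)) * hermite n < gam M := h2
  have h4 : (Real.exp (-(κ / n)) * hermite n) ^ n ≤ gam M ^ n :=
    pow_le_pow_left₀ (by positivity) h3.le n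
  have h5 : Real.exp (-(κ / n)) ^ n = Real.exp (-κ) := by
    rw [← Real.exp_nat_mul]
    congr 1
    field_simp
  rw [mul_pow, h5] at h4
  have hd : 0 ≤ M.det ^ 2 := sq_nonneg _
  have h6 : Real.exp κ * Real.exp (-κ) = 1 := by rw [← Real.exp_add]; simp
  calc hermite n ^ n * M.det ^ 2
      = Real.exp κ * (Real.exp (-κ) * hermite n ^ n * M.det ^ 2) := by
        rw [← mul_assoc, ← mul_assoc, h6, one_mul]
    _ ≤ Real.exp κ * (gam M ^ n * M.det ^ 2) := by gcongr
    _ = Real.exp κ * minSq M ^ n := by rw [gam_pow hn hM]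

theorem le_maxMoment {n : ℕ} (hn : 0 < n) {η : ℝ} (hη : 0 < η) :
    n.factorial * hermite n ^ n ≤ (n : ℝ) ^ n * maxMoment n η := by
  have hn' : (0 : ℝ) < n := by exact_mod_cast hn
  have key : ∀ κ : ℝ, 0 < κ → κ * (1 + 1 / η) < 1 →
      (1 - κ * (1 + 1 / η)) ^ n * Real.exp (-κ) * (n.factorial * hermite n ^ n) ≤
        (n : ℝ) ^ n * maxMoment n η := by
    intro κ hκ0 hκ1
    obtain ⟨M, hM, hMh⟩ := exists_near hn hκ0
    obtain ⟨E, _, x, p, hx, hp, hs, hb⟩ := near hn hM hη hMh hκ1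
    have h1 : indexMoment x p ≤ maxMoment n η :=
      le_csSup (moments_bdd hn hη.le) (mem_moments hM x p (fun e => (hx e).2) hp hs)
    have hd : 0 < M.det ^ 2 := by positivity
    have hc : 0 ≤ (1 - κ * (1 + 1 / η)) ^ n := pow_nonneg (by linarith) n
    have h6 : Real.exp (-κ) * Real.exp κ = 1 := by rw [← Real.exp_add]; simp
    have hf : (0 : ℝ) ≤ n.factorial := Nat.cast_nonneg _
    have h2 : M.det ^ 2 * ((1 - κ * (1 + 1 / η)) ^ n * Real.exp (-κ) *
        (n.factorial * hermite n ^ n)) ≤ M.det ^ 2 * ((n : ℝ) ^ n * maxMoment n η) := by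
      calc M.det ^ 2 * ((1 - κ * (1 + 1 / η)) ^ n * Real.exp (-κ) *
            (n.factorial * hermite n ^ n))
          = (1 - κ * (1 + 1 / η)) ^ n * Real.exp (-κ) * n.factorial *
            (hermite n ^ n * M.det ^ 2) := by ring
        _ ≤ (1 - κ * (1 + 1 / η)) ^ n * Real.exp (-κ) * n.factorial *
            (Real.exp κ * minSq M ^ n) := by gcongr
        _ = (Real.exp (-κ) * Real.exp κ) *
            ((1 - κ * (1 + 1 / η)) ^ n * minSq M ^ n * n.factorial) := by ring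
        _ = (1 - κ * (1 + 1 / η)) ^ n * minSq M ^ n * n.factorial := by rw [h6, one_mul]
        _ ≤ (n : ℝ) ^ n * M.det ^ 2 * indexMoment x p := hb
        _ ≤ (n : ℝ) ^ n * M.det ^ 2 * maxMoment n η := by gcongr
        _ = M.det ^ 2 * ((n : ℝ) ^ n * maxMoment n η) := by ring
    exact le_of_mul_le_mul_left h2 hd
  have hcont : Continuous fun κ : ℝ => (1 - κ * (1 + 1 / η)) ^ n * Real.exp (-κ) *
      (n.factorial * hermite n ^ n) := by fun_prop
  have ht : Tendsto (fun κ : ℝ => (1 - κ * (1 + 1 / η)) ^ n * Real.exp (-κ) *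
      (n.factorial * hermite n ^ n)) (𝓝[>] 0) (𝓝 (n.factorial * hermite n ^ n)) := by
    have h1 := hcont.tendsto 0
    simp only [zero_mul, sub_zero, one_pow, neg_zero, Real.exp_zero, one_mul] at h1
    exact h1.mono_left nhdsWithin_le_nhds
  refine le_of_tendsto ht ?_
  have hpos : 0 < 1 / (1 + 1 / η) := by positivity
  filter_upwards [Ioo_mem_nhdsGT hpos] with κ hκ
  apply key κ hκ.1
  have := hκ.2
  rwa [lt_div_iff₀ (by positivity)] at this

end Pool.Agent.V8H47.IM
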