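import Pool.Agent.V8H47.IM.Near

/-! Lattices close to the maximum of the Hermite invariant: the second moment of the index. -/

open Matrix Finset

namespace Pool.Agent.V8H47.IM

open Pool.Agent.H160R3.Herm Pool.Agent.TH220.HG Pool.Agent.V8H47.DDom

/-- the second moment of the index of the sublattice generated by `n` independent random vectors
with the coordinates `x e` and the probabilities `p e` (the index is `0` if they are dependent) -/
noncomputable def indexMoment {n : ℕ} {E : Type} [Fintype E] (x : E → Fin n → ℤ) (p : E → ℝ) : ℝ :=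
  ∑ s : Fin n → E, (∏ i, p (s i)) * ((Matrix.of fun i => x (s i)).det : ℝ) ^ 2

theorem det_lv {n : ℕ} (M : Matrix (Fin n) (Fin n) ℝ) (x : Fin n → Fin n → ℤ) :
    (Matrix.of fun i => lv M (x i)).det = ((Matrix.of x).det : ℝ) * M.det := by
  have h1 : (Matrix.of fun i => lv M (x i)) = (Matrix.of x).map (Int.cast : ℤ → ℝ) * Mᵀ := by
    ext i j
    simp only [Matrix.of_apply, lv, mulVec, dotProduct, Matrix.mul_apply, Matrix.map_apply,
      Matrix.transpose_apply]
    apply Finset.sum_congr rfl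
    intro k _
    ring
  rw [h1, Matrix.det_mul, Matrix.det_transpose, det_map_cast]

/-- the determinant of the matrix of the second moments of lattice vectors -/
theorem det_mom_lv {n : ℕ} {E : Type} [Fintype E] (M : Matrix (Fin n) (Fin n) ℝ)
    (x : E → Fin n → ℤ) (p : E → ℝ) :
    (n.factorial : ℝ) * (mom (fun e => lv M (x e)) p).det = M.det ^ 2 * indexMoment x p := by
  rw [det_mom, indexMoment, Finset.mul_sum]
  apply Finset.sum_congr rfl
  intro s _
  rw [det_lv M (fun i => x (s i))]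
  ring

theorem shorts_span {n : ℕ} (hn : 0 < n) {M : Matrix (Fin n) (Fin n) ℝ} (hM : M.det ≠ 0)
    {η κ : ℝ} (hη : 0 < η) (hκ : hermite n ^ n * M.det ^ 2 ≤ Real.exp κ * minSq M ^ n)
    (hκη : κ * (1 + 1 / η) < 1) {v : Fin n → ℝ}
    (hv : ∀ w : Fin n → ℤ, w ≠ 0 → nsq M w ≤ (1 + η) * minSq M → lv M w ⬝ᵥ v = 0) : v = 0 := by
  by_contra hv0
  have hvv : 0 < v ⬝ᵥ v := dot_self_pos hv0
  have hμ := minSq_pos hn hM
  obtain ⟨t, ht⟩ : ∃ t : ℝ, t = η / (1 + η) := ⟨_, rfl⟩
  have ht0 : 0 < t := by rw [ht]; positivity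
  have ht1 : t < 1 := by rw [ht, div_lt_one (by positivity)]; linarith
  have ht2 : (1 - t) * (1 + η) = 1 := by rw [ht]; field_simp; ring
  obtain ⟨R, hR⟩ : ∃ R : Matrix (Fin n) (Fin n) ℝ,
      R = 1 - (t / (v ⬝ᵥ v)) • vecMulVec v v := ⟨_, rfl⟩
  have hRx : ∀ x : Fin n → ℝ, x ⬝ᵥ (R *ᵥ x) = x ⬝ᵥ x - t / (v ⬝ᵥ v) * (x ⬝ᵥ v) ^ 2 := by
    intro x
    rw [hR, Matrix.sub_mulVec, Matrix.one_mulVec, dotProduct_sub, Matrix.smul_mulVec,
      dotProduct_smul, Matrix.vecMulVec_mulVec, smul_eq_mul]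
    simp only [dotProduct_smul, op_smul_eq_smul, smul_eq_mul]
    rw [dotProduct_comm v x]
    ring
  have hcs : ∀ x : Fin n → ℝ, (x ⬝ᵥ v) ^ 2 ≤ (x ⬝ᵥ x) * (v ⬝ᵥ v) := by
    intro x
    have := Finset.sum_mul_sq_le_sq_mul_sq Finset.univ x v
    have e1 : ∀ y : Fin n → ℝ, y ⬝ᵥ y = ∑ i, y i ^ 2 := by
      intro y
      rw [dotProduct]
      apply Finset.sum_congr rfl
      intro i _
      ring
    rw [e1, e1]
    exact this
  have hRge : ∀ x : Fin n → ℝ, (1 - t) * (x ⬝ᵥ x) ≤ x ⬝ᵥ (R *ᵥ x) := by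
    intro x
    rw [hRx]
    have h1 := hcs x
    have h2 : t / (v ⬝ᵥ v) * (x ⬝ᵥ v) ^ 2 ≤ t * (x ⬝ᵥ x) := by
      rw [div_mul_eq_mul_div, div_le_iff₀ hvv]
      nlinarith
    linarith
  have hRpd : R.PosDef := by
    rw [Matrix.posDef_iff_dotProduct_mulVec]
    refine ⟨?_, fun x hx => ?_⟩
    · rw [Matrix.IsHermitian, Matrix.conjTranspose_eq_transpose_of_trivial, hR]
      rw [Matrix.transpose_sub, Matrix.transpose_one, Matrix.transpose_smul,
        Matrix.transpose_vecMulVec]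
    · rw [star_trivial]
      have h1 := dot_self_pos hx
      have h2 := hRge x
      have h3 : 0 < (1 - t) * (x ⬝ᵥ x) := mul_pos (by linarith) h1
      linarith
  have h1 := perturb hn hM hRpd hμ.le (by
    intro w hw
    by_cases hs : nsq M w ≤ (1 + η) * minSq M
    · rw [hRx, hv w hw hs, lv_dot]
      have := minSq_le M w hw
      simp only [ne_eq, OfNat.ofNat_ne_zero, not_false_eq_true, zero_pow, mul_zero, sub_zero]
      exact this
    · push Not at hs
      refine le_trans ?_ (hRge _)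
      rw [lv_dot]
      calc minSq M = ((1 - t) * (1 + η)) * minSq M := by rw [ht2, one_mul]
        _ = (1 - t) * ((1 + η) * minSq M) := by ring
        _ ≤ (1 - t) * nsq M w := mul_le_mul_of_nonneg_left hs.le (by linarith))
  have htr : R.trace = n - t := by
    rw [hR, Matrix.trace_sub, Matrix.trace_one, Matrix.trace_smul, Matrix.trace_vecMulVec,
      Fintype.card_fin, smul_eq_mul, div_mul_cancel₀ _ hvv.ne']
  rw [htr] at h1
  have hn' : (0 : ℝ) < n := by exact_mod_cast hn
  have hn1 : (1 : ℝ) ≤ n := by exact_mod_cast hn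
  have h2 : (((n : ℝ) - t) / n) ^ n ≤ Real.exp (-t) := by
    have := Real.one_sub_div_pow_le_exp_neg (n := n) (t := t) (by linarith)
    refine le_trans (le_of_eq ?_) this
    congr 1
    field_simp
  have hherm : 0 ≤ hermite n := (hermite_pos hn).le
  have h3 : minSq M ^ n ≤ Real.exp (κ - t) * minSq M ^ n := by
    calc minSq M ^ n ≤ hermite n ^ n * (M.det ^ 2 * (((n : ℝ) - t) / n) ^ n) := h1
      _ ≤ hermite n ^ n * (M.det ^ 2 * Real.exp (-t)) := by gcongr
      _ = (hermite n ^ n * M.det ^ 2) * Real.exp (-t) := by ring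
      _ ≤ (Real.exp κ * minSq M ^ n) * Real.exp (-t) := by gcongr
      _ = Real.exp (κ - t) * minSq M ^ n := by rw [sub_eq_add_neg, Real.exp_add]; ring
  have h4 : 1 ≤ Real.exp (κ - t) := by
    have hp : 0 < minSq M ^ n := pow_pos hμ n
    by_contra hlt
    push Not at hlt
    nlinarith
  have h5 : t ≤ κ := by
    by_contra hlt
    push Not at hlt
    have := Real.exp_lt_one_iff.mpr (show κ - t < 0 by linarith)
    linarith
  have h6 : t * (1 + 1 / η) = 1 := by
    rw [ht]; field_simp; ring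
  have h7 : t * (1 + 1 / η) ≤ κ * (1 + 1 / η) := mul_le_mul_of_nonneg_right h5 (by positivity)
  linarith


/-- **Lattices close to the maximum.** If `γ_n ^ n ≤ e ^ κ γ(M) ^ n` with `κ (1 + 1 / η) < 1`, then
there is a probability on the vectors of the lattice with squared length at most `1 + η` times the
minimum such that `γ(M) ^ n` is, up to the factor `(1 - κ (1 + 1 / η)) ^ (-n)`, at most `n ^ n / n!`
times the second moment of the index of the sublattice generated by `n` independent such vectors. -/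
theorem near {n : ℕ} (hn : 0 < n) {M : Matrix (Fin n) (Fin n) ℝ} (hM : M.det ≠ 0)
    {η κ : ℝ} (hη : 0 < η) (hκ : hermite n ^ n * M.det ^ 2 ≤ Real.exp κ * minSq M ^ n)
    (hκη : κ * (1 + 1 / η) < 1) :
    ∃ (E : Type) (_ : Fintype E) (x : E → Fin n → ℤ) (p : E → ℝ),
      (∀ e, x e ≠ 0 ∧ nsq M (x e) ≤ (1 + η) * minSq M) ∧ (∀ e, 0 ≤ p e) ∧ ∑ e, p e = 1 ∧
      (1 - κ * (1 + 1 / η)) ^ n * minSq M ^ n * n.factorial ≤
        (n : ℝ) ^ n * M.det ^ 2 * indexMoment x p := by
  classical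
  have hμ := minSq_pos hn hM
  have hn' : (0 : ℝ) < n := by exact_mod_cast hn
  have hfin : {w : Fin n → ℤ | w ≠ 0 ∧ nsq M w ≤ (1 + η) * minSq M}.Finite :=
    (finite_lt hM ((1 + η) * minSq M + 1)).subset fun w hw => by
      have := hw.2
      show nsq M w < _
      linarith
  haveI : Fintype {w : Fin n → ℤ // w ≠ 0 ∧ nsq M w ≤ (1 + η) * minSq M} := hfin.fintype
  obtain ⟨w0, hw0, hw1⟩ := exists_min hn hM
  haveI : Nonempty {w : Fin n → ℤ // w ≠ 0 ∧ nsq M w ≤ (1 + η) * minSq M} :=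
    ⟨⟨w0, hw0, by rw [hw1]; nlinarith⟩⟩
  obtain ⟨u, hu⟩ : ∃ u : {w : Fin n → ℤ // w ≠ 0 ∧ nsq M w ≤ (1 + η) * minSq M} → Fin n → ℝ,
      u = fun e => lv M e.1 := ⟨_, rfl⟩
  obtain ⟨p, hp, hps, hmax⟩ := exists_design u
  have hspan : ∀ v : Fin n → ℝ, (∀ e, u e ⬝ᵥ v = 0) → v = 0 := by
    intro v hv
    apply shorts_span hn hM hη hκ hκη
    intro w h1 h2
    have := hv ⟨w, h1, h2⟩
    rwa [hu] at this
  -- the determinant is positive
  have hdet : 0 < (mom u p).det := by
    refine lt_of_lt_of_le ?_ (hmax (fun _ => 1 / (Fintype.card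
      {w : Fin n → ℤ // w ≠ 0 ∧ nsq M w ≤ (1 + η) * minSq M} : ℝ)) (fun _ => by positivity) ?_)
    · apply Matrix.PosDef.det_pos
      rw [Matrix.posDef_iff_dotProduct_mulVec]
      refine ⟨?_, fun x hx => ?_⟩
      · rw [Matrix.IsHermitian, Matrix.conjTranspose_eq_transpose_of_trivial]
        exact mom_symm _ _
      · rw [star_trivial, q_mom]
        have h1 : ∃ e, u e ⬝ᵥ x ≠ 0 := by
          by_contra h
          push Not at h
          exact hx (hspan x h)
        obtain ⟨e, he⟩ := h1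
        have hc : (0 : ℝ) < 1 / (Fintype.card
            {w : Fin n → ℤ // w ≠ 0 ∧ nsq M w ≤ (1 + η) * minSq M} : ℝ) := by
          have : 0 < Fintype.card {w : Fin n → ℤ // w ≠ 0 ∧ nsq M w ≤ (1 + η) * minSq M} :=
            Fintype.card_pos
          positivity
        apply Finset.sum_pos'
        · intro f _
          exact mul_nonneg hc.le (sq_nonneg _)
        · exact ⟨e, Finset.mem_univ e, mul_pos hc (by positivity)⟩
    · rw [Finset.sum_const, Finset.card_univ, nsmul_eq_mul]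
      have : (Fintype.card {w : Fin n → ℤ // w ≠ 0 ∧ nsq M w ≤ (1 + η) * minSq M} : ℝ) ≠ 0 := by
        exact_mod_cast Fintype.card_ne_zero
      field_simp
  have hkkt := design_kkt u hp hps hmax hdet
  have hcps := mom_posSemidef u hp
  have hcpd : (mom u p).PosDef :=
    hcps.posDef_iff_isUnit.mpr ((Matrix.isUnit_iff_isUnit_det _).mpr hdet.ne'.isUnit)
  have hipd : (mom u p)⁻¹.PosDef := hcpd.inv
  obtain ⟨τ, hτ⟩ : ∃ τ : ℝ, τ = (mom u p)⁻¹.trace := ⟨_, rfl⟩
  -- `T` is the normalised trace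
  obtain ⟨T, hT⟩ : ∃ T : ℝ, T = minSq M * τ / (n : ℝ) ^ 2 := ⟨_, rfl⟩
  have hdetinv : (mom u p)⁻¹.det = ((mom u p).det)⁻¹ := by
    rw [Matrix.det_nonsing_inv, Ring.inverse_eq_inv']
  have hAG := det_le_trace_pow hn hipd.posSemidef
  rw [hdetinv, ← hτ] at hAG
  have hτ0 : 0 < τ := by
    rw [hτ]
    haveI : Nonempty (Fin n) := ⟨⟨0, hn⟩⟩
    exact hipd.trace_pos
  have hT0 : 0 < T := by rw [hT]; positivity
  have hτT : τ = (n : ℝ) ^ 2 * T / minSq M := by
    rw [hT]; field_simp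
  -- the bound of `T`
  have hκ0 : 0 ≤ κ := by
    have h1 := le_hermite hn M hM
    have h2 := Pool.Agent.R834.HA.inv_pow hn hM
    have h3 : Pool.Agent.R834.HA.inv M ≤ hermite n := h1
    have h4 : minSq M ^ n ≤ Real.exp κ * minSq M ^ n := by
      refine le_trans ?_ hκ
      rw [← h2]
      have := Pool.Agent.R834.HA.inv_nonneg M
      gcongr
    by_contra hneg
    push Not at hneg
    have h5 := Real.exp_lt_one_iff.mpr hneg
    have h6 : 0 < minSq M ^ n := pow_pos hμ n
    nlinarith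
  have hTb : T * (1 - κ * (1 + 1 / η)) ≤ 1 := by
    by_cases hT1 : T ≤ 1
    · have h1 : 0 ≤ κ * (1 + 1 / η) := by positivity
      nlinarith
    push Not at hT1
    obtain ⟨t, ht⟩ : ∃ t : ℝ, t = η / ((1 + η) * (n * T)) := ⟨_, rfl⟩
    have ht0 : 0 < t := by rw [ht]; positivity
    have htn : t * (n * T) = η / (1 + η) := by rw [ht]; field_simp
    obtain ⟨R, hR⟩ : ∃ R : Matrix (Fin n) (Fin n) ℝ,
      R = (1 + t) • (1 : Matrix (Fin n) (Fin n) ℝ) -
        (t * minSq M / n) • (mom u p)⁻¹ := ⟨_, rfl⟩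
    have hRx : ∀ x : Fin n → ℝ, x ⬝ᵥ (R *ᵥ x) = (1 + t) * (x ⬝ᵥ x) -
        t * minSq M / n * (x ⬝ᵥ ((mom u p)⁻¹ *ᵥ x)) := by
      intro x
      rw [hR, Matrix.sub_mulVec, dotProduct_sub, Matrix.smul_mulVec, Matrix.smul_mulVec,
        dotProduct_smul, dotProduct_smul, Matrix.one_mulVec, smul_eq_mul, smul_eq_mul]
    have hRge : ∀ x : Fin n → ℝ, 1 / (1 + η) * (x ⬝ᵥ x) ≤ x ⬝ᵥ (R *ᵥ x) := by
      intro x
      rw [hRx]
      have h1 := form_le_trace hipd.posSemidef x
      rw [← hτ] at h1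
      have h0 : 0 ≤ x ⬝ᵥ x := by
        have := dotProduct_star_self_nonneg x
        rwa [star_trivial] at this
      have h2 : t * minSq M / n * (x ⬝ᵥ ((mom u p)⁻¹ *ᵥ x)) ≤ t * minSq M / n * (τ * (x ⬝ᵥ x)) :=
        mul_le_mul_of_nonneg_left h1 (by positivity)
      have h3 : t * minSq M / n * (τ * (x ⬝ᵥ x)) = η / (1 + η) * (x ⬝ᵥ x) := by
        rw [← htn, hτT]
        field_simp
      have h4 : 1 / (1 + η) * (x ⬝ᵥ x) = (x ⬝ᵥ x) - η / (1 + η) * (x ⬝ᵥ x) := by
        field_simp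
        ring
      nlinarith
    have hRpd : R.PosDef := by
      rw [Matrix.posDef_iff_dotProduct_mulVec]
      refine ⟨?_, fun x hx => ?_⟩
      · rw [Matrix.IsHermitian, Matrix.conjTranspose_eq_transpose_of_trivial, hR,
          Matrix.transpose_sub, Matrix.transpose_smul, Matrix.transpose_smul,
          Matrix.transpose_one, Matrix.transpose_nonsing_inv]
        rw [(mom_symm u p).eq]
      · rw [star_trivial]
        have h1 := dot_self_pos hx
        have h2 := hRge x
        have h3 : 0 < 1 / (1 + η) * (x ⬝ᵥ x) := by positivity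
        linarith
    have h1 := perturb hn hM hRpd hμ.le (by
      intro w hw
      by_cases hs : nsq M w ≤ (1 + η) * minSq M
      · have h2 := hkkt ⟨w, hw, hs⟩
        have h3 : u ⟨w, hw, hs⟩ = lv M w := by rw [hu]
        rw [h3] at h2
        rw [hRx, lv_dot]
        have h4 := minSq_le M w hw
        have h4' : minSq M ≤ nsq M w := h4
        have h5 : t * minSq M / n * (lv M w ⬝ᵥ ((mom u p)⁻¹ *ᵥ lv M w)) ≤
            t * minSq M / n * n := mul_le_mul_of_nonneg_left h2 (by positivity)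
        have h6 : t * minSq M / n * (n : ℝ) = t * minSq M := by field_simp
        nlinarith
      · push Not at hs
        refine le_trans ?_ (hRge _)
        rw [lv_dot]
        rw [div_mul_eq_mul_div, one_mul, le_div_iff₀ (by positivity)]
        linarith)
    have htr : R.trace = n * (1 - t * (T - 1)) := by
      rw [hR, Matrix.trace_sub, Matrix.trace_smul, Matrix.trace_smul, Matrix.trace_one,
        Fintype.card_fin, smul_eq_mul, smul_eq_mul, ← hτ, hτT]
      field_simp
      ring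
    rw [htr, mul_div_cancel_left₀ _ hn'.ne'] at h1
    have hy0 : 0 ≤ 1 - t * (T - 1) := by
      have h2 : t * (T - 1) ≤ t * (n * T) := by
        apply mul_le_mul_of_nonneg_left _ ht0.le
        have hn1 : (1 : ℝ) ≤ n := by exact_mod_cast hn
        nlinarith
      rw [htn] at h2
      have h3 : η / (1 + η) ≤ 1 := by rw [div_le_one (by positivity)]; linarith
      linarith
    have h2 : (1 - t * (T - 1)) ^ n ≤ Real.exp (-(n * (t * (T - 1)))) := by
      have h3 : 1 - t * (T - 1) ≤ Real.exp (-(t * (T - 1))) := by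
        have := Real.add_one_le_exp (-(t * (T - 1)))
        linarith
      calc (1 - t * (T - 1)) ^ n ≤ Real.exp (-(t * (T - 1))) ^ n := pow_le_pow_left₀ hy0 h3 n
        _ = Real.exp (-(n * (t * (T - 1)))) := by
          rw [← Real.exp_nat_mul]; congr 1; ring
    have hherm : 0 ≤ hermite n := (hermite_pos hn).le
    have h3 : minSq M ^ n ≤ Real.exp (κ - n * (t * (T - 1))) * minSq M ^ n := by
      calc minSq M ^ n ≤ hermite n ^ n * (M.det ^ 2 * (1 - t * (T - 1)) ^ n) := h1
        _ ≤ hermite n ^ n * (M.det ^ 2 * Real.exp (-(n * (t * (T - 1))))) := by gcongr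
        _ = (hermite n ^ n * M.det ^ 2) * Real.exp (-(n * (t * (T - 1)))) := by ring
        _ ≤ (Real.exp κ * minSq M ^ n) * Real.exp (-(n * (t * (T - 1)))) := by gcongr
        _ = Real.exp (κ - n * (t * (T - 1))) * minSq M ^ n := by
          rw [sub_eq_add_neg κ, Real.exp_add]; ring
    have h4 : n * (t * (T - 1)) ≤ κ := by
      by_contra hlt
      push Not at hlt
      have h5 := Real.exp_lt_one_iff.mpr (show κ - n * (t * (T - 1)) < 0 by linarith)
      have hp : 0 < minSq M ^ n := pow_pos hμ n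
      nlinarith
    have h5 : n * (t * (T - 1)) * T = η / (1 + η) * (T - 1) := by
      rw [← htn]; ring
    have h6 : η / (1 + η) * (T - 1) ≤ κ * T := by
      rw [← h5]; exact mul_le_mul_of_nonneg_right h4 hT0.le
    have h7 : (1 + 1 / η) * (η / (1 + η)) = 1 := by field_simp; ring
    have h8 : T - 1 ≤ (1 + 1 / η) * (κ * T) := by
      calc T - 1 = (1 + 1 / η) * (η / (1 + η)) * (T - 1) := by rw [h7, one_mul]
        _ = (1 + 1 / η) * (η / (1 + η) * (T - 1)) := by ring
        _ ≤ (1 + 1 / η) * (κ * T) := mul_le_mul_of_nonneg_left h6 (by positivity)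
    nlinarith
  refine ⟨_, inferInstance, fun e => e.1, p, fun e => e.2, hp, hps, ?_⟩
  have h1 := det_mom_lv M (fun e : {w : Fin n → ℤ // w ≠ 0 ∧ nsq M w ≤ (1 + η) * minSq M} => e.1) p
  have h2 : (mom (fun e : {w : Fin n → ℤ // w ≠ 0 ∧ nsq M w ≤ (1 + η) * minSq M} => lv M e.1) p) =
      mom u p := by rw [hu]
  rw [h2] at h1
  have h3 : minSq M ^ n ≤ T ^ n * (n : ℝ) ^ n * (mom u p).det := by
    have h4 : ((mom u p).det)⁻¹ ≤ ((n : ℝ) * T / minSq M) ^ n := by
      refine hAG.trans (le_of_eq ?_)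
      congr 1
      rw [hτT]
      field_simp
    rw [div_pow, mul_pow] at h4
    have h5 : 0 < minSq M ^ n := pow_pos hμ n
    rw [inv_eq_one_div, div_le_div_iff₀ hdet h5] at h4
    linarith
  have hnn : 0 ≤ 1 - κ * (1 + 1 / η) := by linarith
  have h4 : ((1 - κ * (1 + 1 / η)) * T) ^ n ≤ 1 :=
    pow_le_one₀ (mul_nonneg hnn hT0.le) (by linarith [hTb, mul_comm T (1 - κ * (1 + 1 / η))])
  have hfac : (0 : ℝ) ≤ n.factorial := Nat.cast_nonneg _
  calc (1 - κ * (1 + 1 / η)) ^ n * minSq M ^ n * n.factorial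
      ≤ (1 - κ * (1 + 1 / η)) ^ n * (T ^ n * (n : ℝ) ^ n * (mom u p).det) * n.factorial := by
        gcongr
    _ = ((1 - κ * (1 + 1 / η)) * T) ^ n * ((n : ℝ) ^ n * (n.factorial * (mom u p).det)) := by
        rw [mul_pow]; ring
    _ ≤ 1 * ((n : ℝ) ^ n * (n.factorial * (mom u p).det)) := by gcongr
    _ = (n : ℝ) ^ n * M.det ^ 2 * indexMoment _ p := by rw [h1]; ring

end Pool.Agent.V8H47.IM
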