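import Pool.Agent.V8H47.IM.Design
import Pool.Agent.V8H47.DDom.Lattice
import Pool.Agent.R834.HA.Split

/-! Lattices close to the maximum of the Hermite invariant: indices of sublattices generated by short
vectors. -/

open Matrix Finset

namespace Pool.Agent.V8H47.IM

open Pool.Agent.H160R3.Herm Pool.Agent.TH220.HG Pool.Agent.V8H47.DDom

/-- arithmetic-geometric mean inequality for the eigenvalues -/
theorem det_le_trace_pow {n : ℕ} (hn : 0 < n) {A : Matrix (Fin n) (Fin n) ℝ}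
    (hA : A.PosSemidef) : A.det ≤ (A.trace / n) ^ n := by
  have h3 : ∀ i, 0 ≤ hA.isHermitian.eigenvalues i := fun i => hA.eigenvalues_nonneg i
  have hn' : (n : ℝ) ≠ 0 := by exact_mod_cast hn.ne'
  have h4 := Real.geom_mean_le_arith_mean_weighted (Finset.univ : Finset (Fin n))
    (fun _ => (1 : ℝ) / n) hA.isHermitian.eigenvalues (fun _ _ => by positivity)
    (by
      rw [Finset.sum_const, Finset.card_univ, Fintype.card_fin, nsmul_eq_mul]
      field_simp) (fun i _ => h3 i)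
  rw [Real.finsetProd_rpow _ _ (fun i _ => h3 i), ← Finset.mul_sum] at h4
  have e1 : A.det = ∏ i, hA.isHermitian.eigenvalues i := by
    rw [hA.isHermitian.det_eq_prod_eigenvalues]; simp
  have e2 : A.trace = ∑ i, hA.isHermitian.eigenvalues i := by
    rw [hA.isHermitian.trace_eq_sum_eigenvalues]; simp
  have h5 : 0 ≤ ∏ i, hA.isHermitian.eigenvalues i := Finset.prod_nonneg fun i _ => h3 i
  rw [e1, e2]
  have h6 := pow_le_pow_left₀ (Real.rpow_nonneg h5 _) h4 n
  rw [← Real.rpow_natCast, ← Real.rpow_mul h5, one_div_mul_cancel hn', Real.rpow_one] at h6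
  refine h6.trans (le_of_eq ?_)
  congr 1
  ring

theorem form_le_trace {n : ℕ} {A : Matrix (Fin n) (Fin n) ℝ} (hA : A.PosSemidef)
    (x : Fin n → ℝ) : x ⬝ᵥ (A *ᵥ x) ≤ A.trace * (x ⬝ᵥ x) := by
  open scoped MatrixOrder in
  obtain ⟨C, rfl⟩ := CStarAlgebra.nonneg_iff_eq_star_mul_self.mp hA.nonneg
  have hstar : star C = Cᵀ := by
    ext i j
    simp [Matrix.star_apply]
  rw [hstar, ← Pool.Agent.R834.HA.sum_sq]
  have h1 : (Cᵀ * C).trace = ∑ i, ∑ j, C i j ^ 2 := by
    rw [Matrix.trace, Finset.sum_comm]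
    apply Finset.sum_congr rfl
    intro j _
    rw [Matrix.diag_apply, Matrix.mul_apply]
    apply Finset.sum_congr rfl
    intro i _
    rw [Matrix.transpose_apply]
    ring
  rw [h1, Finset.sum_mul]
  apply Finset.sum_le_sum
  intro i _
  have h2 := Finset.sum_mul_sq_le_sq_mul_sq Finset.univ (fun j => C i j) x
  have h3 : x ⬝ᵥ x = ∑ j, x j ^ 2 := by
    rw [dotProduct]
    apply Finset.sum_congr rfl
    intro j _
    ring
  rw [h3]
  exact h2

/-- the vector of the lattice `M ℤⁿ` with the coordinates `w` -/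
noncomputable def lv {n : ℕ} (M : Matrix (Fin n) (Fin n) ℝ) (w : Fin n → ℤ) : Fin n → ℝ :=
  M *ᵥ (fun j => (w j : ℝ))

theorem lv_dot {n : ℕ} (M : Matrix (Fin n) (Fin n) ℝ) (w : Fin n → ℤ) :
    lv M w ⬝ᵥ lv M w = nsq M w := by
  unfold lv nsq dotProduct
  apply Finset.sum_congr rfl
  intro i _
  ring

theorem dot_self_pos {n : ℕ} {x : Fin n → ℝ} (hx : x ≠ 0) : 0 < x ⬝ᵥ x := by
  have h := dotProduct_star_self_pos_iff (v := x)
  rw [star_trivial] at h
  exact h.mpr hx

theorem perturb {n : ℕ} (hn : 0 < n) {M : Matrix (Fin n) (Fin n) ℝ} (hM : M.det ≠ 0)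
    {R : Matrix (Fin n) (Fin n) ℝ} (hR : R.PosDef) {μ : ℝ} (hμ : 0 ≤ μ)
    (h : ∀ w : Fin n → ℤ, w ≠ 0 → μ ≤ lv M w ⬝ᵥ (R *ᵥ lv M w)) :
    μ ^ n ≤ hermite n ^ n * (M.det ^ 2 * (R.trace / n) ^ n) := by
  have hinj : Function.Injective M.mulVec := by
    apply Matrix.mulVec_injective_of_isUnit
    rw [Matrix.isUnit_iff_isUnit_det, isUnit_iff_ne_zero]
    exact hM
  have hG : (Mᵀ * R * M).PosDef := by
    have := hR.conjTranspose_mul_mul_same hinj
    rwa [Matrix.conjTranspose_eq_transpose_of_trivial] at this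
  have h1 := Pool.Agent.R834.HA.gram_fin (Mᵀ * R * M) hG μ hμ (by
    intro w hw
    refine (h w hw).trans (le_of_eq ?_)
    unfold lv
    rw [← Matrix.mulVec_mulVec, ← Matrix.mulVec_mulVec, Matrix.dotProduct_mulVec _ Mᵀ,
      Matrix.vecMul_transpose])
  refine h1.trans ?_
  have h2 : (Mᵀ * R * M).det = M.det ^ 2 * R.det := by
    rw [Matrix.det_mul, Matrix.det_mul, Matrix.det_transpose]
    ring
  rw [h2]
  have h3 := det_le_trace_pow hn hR.posSemidef
  have h4 : 0 ≤ hermite n := (hermite_pos hn).le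
  gcongr

end Pool.Agent.V8H47.IM
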