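import Pool.Agent.V8H47.IM.Main

/-! Hermite's constant as the supremum of the second moments of the index. -/

open Matrix Finset Filter Topology

namespace Pool.Agent.V8H47.IM

open Pool.Agent.H160R3.Herm Pool.Agent.TH220.HG Pool.Agent.V8H47.DDom

theorem gam_pow {n : ℕ} (hn : 0 < n) {M : Matrix (Fin n) (Fin n) ℝ} (hM : M.det ≠ 0) :
    gam M ^ n * M.det ^ 2 = minSq M ^ n := Pool.Agent.R834.HA.inv_pow hn hM

theorem gam_pos {n : ℕ} (hn : 0 < n) {M : Matrix (Fin n) (Fin n) ℝ} (hM : M.det ≠ 0) :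
    0 < gam M := by
  have h1 := minSq_pos hn hM
  have h2 : 0 < |M.det| := abs_pos.mpr hM
  unfold gam
  positivity

theorem indexMoment_nonneg {n : ℕ} {E : Type} [Fintype E] (x : E → Fin n → ℤ) {p : E → ℝ}
    (hp : ∀ e, 0 ≤ p e) : 0 ≤ indexMoment x p :=
  Finset.sum_nonneg fun _ _ => mul_nonneg (Finset.prod_nonneg fun _ _ => hp _) (sq_nonneg _)

/-- the second moment of the index for vectors of squared length at most `(1 + η) minSq` -/
theorem indexMoment_le {n : ℕ} (hn : 0 < n) {M : Matrix (Fin n) (Fin n) ℝ} (hM : M.det ≠ 0)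
    {η : ℝ} {E : Type} [Fintype E] (x : E → Fin n → ℤ) {p : E → ℝ}
    (hx : ∀ e, nsq M (x e) ≤ (1 + η) * minSq M) (hp : ∀ e, 0 ≤ p e) (hs : ∑ e, p e = 1) :
    (n : ℝ) ^ n * indexMoment x p ≤ n.factorial * ((1 + η) * gam M) ^ n := by
  have hn' : (0 : ℝ) < n := by exact_mod_cast hn
  have h1 := det_mom_lv M x p
  have h2 := det_le_trace_pow hn (mom_posSemidef (fun e => lv M (x e)) hp)
  have h3 : (mom (fun e => lv M (x e)) p).trace ≤ (1 + η) * minSq M := by
    rw [trace_mom]
    calc ∑ e, p e * (lv M (x e) ⬝ᵥ lv M (x e)) ≤ ∑ e, p e * ((1 + η) * minSq M) := by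
          apply Finset.sum_le_sum
          intro e _
          rw [lv_dot]
          exact mul_le_mul_of_nonneg_left (hx e) (hp e)
      _ = (1 + η) * minSq M := by rw [← Finset.sum_mul, hs, one_mul]
  have h4 : 0 ≤ (mom (fun e => lv M (x e)) p).trace := by
    rw [trace_mom]
    apply Finset.sum_nonneg
    intro e _
    rw [lv_dot]
    exact mul_nonneg (hp e) (nsq_nonneg _ _)
  have h5 : (mom (fun e => lv M (x e)) p).det ≤ ((1 + η) * minSq M / n) ^ n :=
    h2.trans (pow_le_pow_left₀ (by positivity) (by gcongr) n)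
  have hd : 0 < M.det ^ 2 := by positivity
  have hf : (0 : ℝ) ≤ n.factorial := Nat.cast_nonneg _
  have h6 : M.det ^ 2 * ((n : ℝ) ^ n * indexMoment x p) ≤
      M.det ^ 2 * (n.factorial * ((1 + η) * gam M) ^ n) := by
    calc M.det ^ 2 * ((n : ℝ) ^ n * indexMoment x p)
        = (n : ℝ) ^ n * (n.factorial * (mom (fun e => lv M (x e)) p).det) := by rw [h1]; ring
      _ ≤ (n : ℝ) ^ n * (n.factorial * ((1 + η) * minSq M / n) ^ n) := by gcongr
      _ = n.factorial * ((1 + η) ^ n * minSq M ^ n) := by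
          rw [div_pow, mul_pow]; field_simp
      _ = M.det ^ 2 * (n.factorial * ((1 + η) * gam M) ^ n) := by
          rw [← gam_pow hn hM, mul_pow]; ring
  exact le_of_mul_le_mul_left h6 hd

/-- Tight frames of minimal vectors (eutactic lattices): the exact formula. -/
theorem eutactic_formula {n : ℕ} (hn : 0 < n) {M : Matrix (Fin n) (Fin n) ℝ} (hM : M.det ≠ 0)
    {E : Type} [Fintype E] (x : E → Fin n → ℤ) {c : E → ℝ}
    (hx : ∀ e, nsq M (x e) = minSq M) (hc : mom (fun e => lv M (x e)) c = 1) :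
    ∑ e, c e * (minSq M / n) = 1 ∧
    (n : ℝ) ^ n * indexMoment x (fun e => c e * (minSq M / n)) = n.factorial * gam M ^ n := by
  have hn' : (0 : ℝ) < n := by exact_mod_cast hn
  have hμ := minSq_pos hn hM
  have h1 := trace_mom (fun e => lv M (x e)) c
  rw [hc, Matrix.trace_one, Fintype.card_fin] at h1
  constructor
  · rw [← Finset.sum_mul]
    have h2 : (n : ℝ) = (∑ e, c e) * minSq M := by
      rw [h1, Finset.sum_mul]
      apply Finset.sum_congr rfl
      intro e _
      rw [lv_dot, hx]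
    rw [mul_div_assoc', ← h2]
    field_simp
  · have h2 : indexMoment x (fun e => c e * (minSq M / n)) =
        (minSq M / n) ^ n * indexMoment x c := by
      unfold indexMoment
      rw [Finset.mul_sum]
      apply Finset.sum_congr rfl
      intro s _
      rw [Finset.prod_mul_distrib, Finset.prod_const, Finset.card_univ, Fintype.card_fin]
      ring
    have h3 := det_mom_lv M x c
    rw [hc, Matrix.det_one, mul_one] at h3
    have hd : M.det ^ 2 ≠ 0 := by positivity
    have h4 : gam M ^ n = minSq M ^ n / M.det ^ 2 := by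
      rw [eq_div_iff hd]; exact gam_pow hn hM
    rw [h2, h4, h3, div_pow]
    field_simp

/-- Tight frames with small indices. -/
theorem frame_bound {n : ℕ} (hn : 0 < n) {M : Matrix (Fin n) (Fin n) ℝ} (hM : M.det ≠ 0)
    {E : Type} [Fintype E] (x : E → Fin n → ℤ) {c : E → ℝ} (hx : ∀ e, x e ≠ 0)
    (hc0 : ∀ e, 0 ≤ c e) (hc : mom (fun e => lv M (x e)) c = 1) {D : ℝ}
    (hD : ∀ s : Fin n → E, |((Matrix.of fun i => x (s i)).det : ℝ)| ≤ D) :
    n.factorial * gam M ^ n ≤ (n : ℝ) ^ n * D ^ 2 := by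
  have hn' : (0 : ℝ) < n := by exact_mod_cast hn
  have hμ := minSq_pos hn hM
  have h1 := trace_mom (fun e => lv M (x e)) c
  rw [hc, Matrix.trace_one, Fintype.card_fin] at h1
  have h2 : (∑ e, c e) * minSq M ≤ n := by
    rw [h1, Finset.sum_mul]
    apply Finset.sum_le_sum
    intro e _
    rw [lv_dot]
    exact mul_le_mul_of_nonneg_left (minSq_le M _ (hx e)) (hc0 e)
  have h3 := det_mom_lv M x c
  rw [hc, Matrix.det_one, mul_one] at h3
  have h4 : indexMoment x c ≤ D ^ 2 * (∑ e, c e) ^ n := by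
    unfold indexMoment
    calc ∑ s : Fin n → E, (∏ i, c (s i)) * ((Matrix.of fun i => x (s i)).det : ℝ) ^ 2
        ≤ ∑ s : Fin n → E, (∏ i, c (s i)) * D ^ 2 := by
          apply Finset.sum_le_sum
          intro s _
          apply mul_le_mul_of_nonneg_left _ (Finset.prod_nonneg fun _ _ => hc0 _)
          rw [← sq_abs]
          exact pow_le_pow_left₀ (abs_nonneg _) (hD s) 2
      _ = D ^ 2 * (∑ e, c e) ^ n := by
          rw [← Finset.sum_mul, mul_comm]
          congr 1
          rw [Finset.sum_pow' ]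
          simp
  have hs0 : 0 ≤ ∑ e, c e := Finset.sum_nonneg fun e _ => hc0 e
  have hd : 0 < M.det ^ 2 := by positivity
  have h5 : M.det ^ 2 * (n.factorial * gam M ^ n) ≤ M.det ^ 2 * ((n : ℝ) ^ n * D ^ 2) := by
    calc M.det ^ 2 * (n.factorial * gam M ^ n)
        = n.factorial * minSq M ^ n := by rw [← gam_pow hn hM]; ring
      _ = M.det ^ 2 * indexMoment x c * minSq M ^ n := by rw [h3]
      _ ≤ M.det ^ 2 * (D ^ 2 * (∑ e, c e) ^ n) * minSq M ^ n := by gcongr
      _ = M.det ^ 2 * (D ^ 2 * ((∑ e, c e) * minSq M) ^ n) := by rw [mul_pow]; ring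
      _ ≤ M.det ^ 2 * (D ^ 2 * (n : ℝ) ^ n) := by gcongr
      _ = M.det ^ 2 * ((n : ℝ) ^ n * D ^ 2) := by ring
  exact le_of_mul_le_mul_left h5 hd

end Pool.Agent.V8H47.IM
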