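import Pool.Agent.V8H47.IM.CB

/-! Vertices: moving a point to a point at which many linear forms have the values `0`, `1`, `-1`. -/

open Matrix Finset

namespace Pool.Agent.V8H47.IM

/-- the value is `0`, `1` or `-1` -/
def Tight (t : ℝ) : Prop := |t| = 0 ∨ |t| = 1

/-- one step -/
theorem vertex_step {n : ℕ} {E : Type} [Fintype E] {a : E → Fin n → ℝ} {c : E → ℝ}
    (hspan : ∀ d : Fin n → ℝ, (∀ e, a e ⬝ᵥ d = 0) → d = 0)
    {x d : Fin n → ℝ} (hx : ∀ e, |a e ⬝ᵥ x| ≤ 1) (hd : d ≠ 0)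
    (hT : ∀ e, Tight (a e ⬝ᵥ x) → a e ⬝ᵥ d = 0) :
    ∃ y : Fin n → ℝ, (∀ e, |a e ⬝ᵥ y| ≤ 1) ∧
      ∑ e, c e * |a e ⬝ᵥ y| ≤ ∑ e, c e * |a e ⬝ᵥ x| ∧
      (∀ e, Tight (a e ⬝ᵥ x) → a e ⬝ᵥ y = a e ⬝ᵥ x) ∧
      ∃ e, ¬ Tight (a e ⬝ᵥ x) ∧ Tight (a e ⬝ᵥ y) := by
  classical
  obtain ⟨σ, hσ⟩ : ∃ σ : E → ℝ, σ = fun e => if 0 ≤ a e ⬝ᵥ x then 1 else -1 := ⟨_, rfl⟩
  have hσ1 : ∀ e, |σ e| = 1 := by
    intro e
    rw [hσ]
    dsimp only
    split_ifs <;> simp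
  have hσx : ∀ e, σ e * (a e ⬝ᵥ x) = |a e ⬝ᵥ x| := by
    intro e
    rw [hσ]
    dsimp only
    split_ifs with h
    · rw [abs_of_nonneg h, one_mul]
    · rw [abs_of_neg (not_le.mp h)]; ring
  -- the direction of nonincrease
  wlog hg : ∑ e, c e * (σ e * (a e ⬝ᵥ d)) ≤ 0 generalizing d
  · refine this (d := -d) (by simpa using hd) ?_ ?_
    · intro e he
      rw [dotProduct_neg, hT e he, neg_zero]
    · have h1 : ∑ e, c e * (σ e * (a e ⬝ᵥ (-d))) = -∑ e, c e * (σ e * (a e ⬝ᵥ d)) := by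
        rw [← Finset.sum_neg_distrib]
        apply Finset.sum_congr rfl
        intro e _
        rw [dotProduct_neg]
        ring
      rw [h1]
      push Not at hg
      linarith
  obtain ⟨θ, hθ⟩ : ∃ θ : E → ℝ, θ = fun e => σ e * (a e ⬝ᵥ d) := ⟨_, rfl⟩
  obtain ⟨τ, hτ⟩ : ∃ τ : E → ℝ, τ = fun e => if 0 < θ e then (1 - |a e ⬝ᵥ x|) / θ e
      else |a e ⬝ᵥ x| / (-θ e) := ⟨_, rfl⟩
  have hne : ∀ e, θ e ≠ 0 → ¬ Tight (a e ⬝ᵥ x) := by
    intro e he ht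
    apply he
    rw [hθ]
    dsimp only
    rw [hT e ht, mul_zero]
  have hpos : ∀ e, θ e ≠ 0 → 0 < τ e := by
    intro e he
    have h1 := hne e he
    unfold Tight at h1
    push Not at h1
    have h2 : 0 < |a e ⬝ᵥ x| := lt_of_le_of_ne (abs_nonneg _) (Ne.symm h1.1)
    have h3 : |a e ⬝ᵥ x| < 1 := lt_of_le_of_ne (hx e) h1.2
    rw [hτ]
    dsimp only
    split_ifs with h
    · apply div_pos (by linarith) h
    · apply div_pos h2
      have : θ e < 0 := lt_of_le_of_ne (not_lt.mp h) he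
      linarith
  have hrange : ∀ e, θ e ≠ 0 → ∀ t, 0 ≤ t → t ≤ τ e →
      0 ≤ |a e ⬝ᵥ x| + t * θ e ∧ |a e ⬝ᵥ x| + t * θ e ≤ 1 := by
    intro e he t ht0 ht
    rw [hτ] at ht
    dsimp only at ht
    split_ifs at ht with h
    · rw [le_div_iff₀ h] at ht
      have := abs_nonneg (a e ⬝ᵥ x)
      have h2 : 0 ≤ t * θ e := by positivity
      constructor <;> linarith
    · have h1 : θ e < 0 := lt_of_le_of_ne (not_lt.mp h) he
      rw [le_div_iff₀ (by linarith)] at ht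
      have h2 : t * θ e ≤ 0 := mul_nonpos_of_nonneg_of_nonpos ht0 h1.le
      have := hx e
      constructor <;> nlinarith
  have hend : ∀ e, θ e ≠ 0 → (|a e ⬝ᵥ x| + τ e * θ e = 0 ∨ |a e ⬝ᵥ x| + τ e * θ e = 1) := by
    intro e he
    rw [hτ]
    dsimp only
    split_ifs with h
    · right
      field_simp
      ring
    · left
      have h1 : θ e < 0 := lt_of_le_of_ne (not_lt.mp h) he
      field_simp
      ring
  -- the first time
  have hex : ∃ e, θ e ≠ 0 := by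
    by_contra h
    push Not at h
    apply hd
    apply hspan
    intro e
    have h1 := h e
    rw [hθ] at h1
    dsimp only at h1
    have h2 : σ e ≠ 0 := by
      intro h0
      have := hσ1 e
      rw [h0, abs_zero] at this
      norm_num at this
    exact (mul_eq_zero.mp h1).resolve_left h2
  obtain ⟨e1, he1⟩ := hex
  obtain ⟨e0, he0, hmin⟩ := (univ.filter fun e => θ e ≠ 0).exists_min_image τ
    ⟨e1, by rw [Finset.mem_filter]; exact ⟨Finset.mem_univ _, he1⟩⟩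
  rw [Finset.mem_filter] at he0
  have he0' := he0.2
  have ht0 := hpos e0 he0'
  have hval : ∀ e, σ e * (a e ⬝ᵥ (x + τ e0 • d)) = |a e ⬝ᵥ x| + τ e0 * θ e := by
    intro e
    rw [dotProduct_add, dotProduct_smul, smul_eq_mul, mul_add, hσx, hθ]
    ring
  have habs : ∀ e, |a e ⬝ᵥ (x + τ e0 • d)| = |a e ⬝ᵥ x| + τ e0 * θ e := by
    intro e
    have h1 : |a e ⬝ᵥ (x + τ e0 • d)| = |σ e * (a e ⬝ᵥ (x + τ e0 • d))| := by
      rw [abs_mul, hσ1, one_mul]
    rw [h1, hval]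
    apply abs_of_nonneg
    by_cases he : θ e = 0
    · rw [he]
      have := abs_nonneg (a e ⬝ᵥ x)
      linarith
    · exact (hrange e he _ ht0.le (hmin e (by
        rw [Finset.mem_filter]; exact ⟨Finset.mem_univ _, he⟩))).1
  refine ⟨x + τ e0 • d, ?_, ?_, ?_, e0, hne e0 he0', ?_⟩
  · intro e
    rw [habs]
    by_cases he : θ e = 0
    · rw [he]
      have := hx e
      linarith
    · exact (hrange e he _ ht0.le (hmin e (by
        rw [Finset.mem_filter]; exact ⟨Finset.mem_univ _, he⟩))).2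
  · have h1 : ∑ e, c e * |a e ⬝ᵥ (x + τ e0 • d)| =
        ∑ e, c e * |a e ⬝ᵥ x| + τ e0 * ∑ e, c e * (σ e * (a e ⬝ᵥ d)) := by
      rw [Finset.mul_sum, ← Finset.sum_add_distrib]
      apply Finset.sum_congr rfl
      intro e _
      rw [habs, hθ]
      ring
    rw [h1]
    nlinarith
  · intro e he
    rw [dotProduct_add, dotProduct_smul, hT e he]
    simp
  · unfold Tight
    rw [habs]
    exact hend e0 he0'

open Classical in
theorem vertex {n : ℕ} {E : Type} [Fintype E] {a : E → Fin n → ℝ} {c : E → ℝ}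
    (hspan : ∀ d : Fin n → ℝ, (∀ e, a e ⬝ᵥ d = 0) → d = 0) (k : ℕ) :
    ∀ x : Fin n → ℝ, (∀ e, |a e ⬝ᵥ x| ≤ 1) →
      (univ.filter fun e => ¬ Tight (a e ⬝ᵥ x)).card ≤ k →
      ∃ y : Fin n → ℝ, (∀ e, |a e ⬝ᵥ y| ≤ 1) ∧
        ∑ e, c e * |a e ⬝ᵥ y| ≤ ∑ e, c e * |a e ⬝ᵥ x| ∧
        (∀ e, Tight (a e ⬝ᵥ x) → a e ⬝ᵥ y = a e ⬝ᵥ x) ∧
        ∀ d : Fin n → ℝ, (∀ e, Tight (a e ⬝ᵥ y) → a e ⬝ᵥ d = 0) → d = 0 := by
  induction k with
  | zero =>
    intro x hx hk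
    refine ⟨x, hx, le_rfl, fun _ _ => rfl, fun d hd => hspan d fun e => hd e ?_⟩
    by_contra hcon
    have h1 : e ∈ (univ.filter fun e => ¬ Tight (a e ⬝ᵥ x)) := by
      rw [Finset.mem_filter]; exact ⟨Finset.mem_univ _, hcon⟩
    have := Finset.card_pos.mpr ⟨e, h1⟩
    omega
  | succ k ih =>
    intro x hx hk
    by_cases h : ∀ d : Fin n → ℝ, (∀ e, Tight (a e ⬝ᵥ x) → a e ⬝ᵥ d = 0) → d = 0
    · exact ⟨x, hx, le_rfl, fun _ _ => rfl, h⟩
    push Not at h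
    obtain ⟨d, hd1, hd2⟩ := h
    obtain ⟨x', h1, h2, h3, e0, h4, h5⟩ := vertex_step (c := c) hspan hx hd2 hd1
    have hlt : (univ.filter fun e => ¬ Tight (a e ⬝ᵥ x')).card <
        (univ.filter fun e => ¬ Tight (a e ⬝ᵥ x)).card := by
      apply Finset.card_lt_card
      rw [Finset.ssubset_iff_of_subset]
      · refine ⟨e0, ?_, ?_⟩
        · rw [Finset.mem_filter]; exact ⟨Finset.mem_univ _, h4⟩
        · rw [Finset.mem_filter]; exact fun h => h.2 h5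
      · intro e he
        rw [Finset.mem_filter] at he ⊢
        refine ⟨Finset.mem_univ _, fun ht => he.2 ?_⟩
        rw [h3 e ht]
        exact ht
    obtain ⟨y, g1, g2, g3, g4⟩ := ih x' h1 (by omega)
    refine ⟨y, g1, g2.trans h2, fun e he => ?_, g4⟩
    rw [g3 e (by rw [h3 e he]; exact he), h3 e he]

end Pool.Agent.V8H47.IM
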